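import Pool.Agent.Run7.h729.Ld.Pf2

/-!
# Uniform bounds of the eigenfunctions
-/

set_option autoImplicit false

namespace H729P
open Filter Topology Set

variable {X B : Type*} [Fintype X] [Fintype B] {p : B → ℝ} {d : B → X → ℝ} {τ : B → X → X}

theorem box (hp : ∀ b, 0 < p b) (hB : Nonempty B) {o : X} {K : ℕ} (hK : ∀ x, Rc τ K x o)
    (hR : ∀ x, ∃ k, Rc τ k o x) (c : ℝ) :
    ∃ l u : ℝ, 0 < l ∧ 0 < u ∧ ∀ κ ∈ Icc 0 c, ∀ (F : X → ℝ) (L : ℝ), 0 < L → (∀ x, 0 < F x) →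
      F o = 1 → (∀ x, W p d τ κ F x = L * F x) → ∀ x, F x ∈ Icc l u := by
  classical
  obtain ⟨b0⟩ := hB
  -- the bounds
  obtain ⟨q, hq0, hq⟩ : ∃ q : ℝ, 0 < q ∧ ∀ κ ∈ Icc 0 c, ∀ b x, q ≤ p b * Real.exp (κ * d b x) := by
    obtain ⟨z, -, hz⟩ := Finset.exists_min_image (Finset.univ : Finset (B × X))
      (fun z => p z.1 * Real.exp (-(c * |d z.1 z.2|))) ⟨(b0, o), Finset.mem_univ _⟩
    refine ⟨_, mul_pos (hp z.1) (Real.exp_pos (-(c * |d z.1 z.2|))), fun κ hκ b x => ?_⟩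
    refine (hz (b, x) (Finset.mem_univ _)).trans ?_
    apply mul_le_mul_of_nonneg_left _ (hp b).le
    apply Real.exp_le_exp.2
    have h1 : κ * |d b x| ≤ c * |d b x| := mul_le_mul_of_nonneg_right hκ.2 (abs_nonneg _)
    have h2 : -(κ * |d b x|) ≤ κ * d b x := by
      have := mul_le_mul_of_nonneg_left (neg_abs_le (d b x)) hκ.1
      linarith
    show -(c * |d b x|) ≤ κ * d b x
    linarith
  obtain ⟨Q, hQ0, hQ⟩ : ∃ Q : ℝ, 0 < Q ∧ ∀ κ ∈ Icc 0 c, ∀ x, ∑ b, p b * Real.exp (κ * d b x) ≤ Q := by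
    refine ⟨∑ x, ∑ b, p b * Real.exp (c * |d b x|), ?_, fun κ hκ x => ?_⟩
    · refine Finset.sum_pos (fun x _ => Finset.sum_pos (fun b _ => mul_pos (hp b) (Real.exp_pos _))
        ⟨b0, Finset.mem_univ _⟩) ⟨o, Finset.mem_univ _⟩
    · have h1 : ∑ b, p b * Real.exp (κ * d b x) ≤ ∑ b, p b * Real.exp (c * |d b x|) := by
        refine Finset.sum_le_sum fun b _ => mul_le_mul_of_nonneg_left ?_ (hp b).le
        apply Real.exp_le_exp.2
        calc κ * d b x ≤ κ * |d b x| := mul_le_mul_of_nonneg_left (le_abs_self _) hκ.1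
          _ ≤ c * |d b x| := mul_le_mul_of_nonneg_right hκ.2 (abs_nonneg _)
      refine h1.trans (Finset.single_le_sum (f := fun x => ∑ b, p b * Real.exp (c * |d b x|))
        (fun x _ => Finset.sum_nonneg fun b _ => (mul_pos (hp b) (Real.exp_pos _)).le)
        (Finset.mem_univ x))
  choose kx hkx using hR
  obtain ⟨l, hl⟩ : ∃ l, l = (q / Q) ^ K := ⟨_, rfl⟩
  obtain ⟨u, hu⟩ : ∃ u, u = ∑ x, (Q / q) ^ kx x := ⟨_, rfl⟩
  have hl0 : 0 < l := by rw [hl]; positivity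
  have hu0 : 0 < u := by
    rw [hu]
    exact Finset.sum_pos (fun x _ => by positivity) ⟨o, Finset.mem_univ _⟩
  refine ⟨l, u, hl0, hu0, ?_⟩
  intro κ hκ F L hL hF ho hW
  have hLQ : L ≤ Q := by
    obtain ⟨x0, -, hx0⟩ := Finset.exists_max_image Finset.univ F ⟨o, Finset.mem_univ o⟩
    have h1 : L * F x0 ≤ Q * F x0 := by
      rw [← hW x0]
      calc W p d τ κ F x0 ≤ ∑ b, p b * Real.exp (κ * d b x0) * F x0 := by
            refine Finset.sum_le_sum fun b _ => ?_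
            exact mul_le_mul_of_nonneg_left (hx0 _ (Finset.mem_univ _)) (pe hp b x0).le
        _ = (∑ b, p b * Real.exp (κ * d b x0)) * F x0 := by rw [Finset.sum_mul]
        _ ≤ Q * F x0 := mul_le_mul_of_nonneg_right (hQ κ hκ x0) (hF x0).le
    exact le_of_mul_le_mul_right h1 (hF x0)
  have hlo : ∀ x, l ≤ F x := by
    intro x
    have h1 := low (d := d) (κ := κ) hp hq0 (hq κ hκ) (fun x => (hF x).le) (hK x)
    rw [Wi_eig hW, ho, mul_one] at h1
    have h2 : L ^ K * F x ≤ Q ^ K * F x :=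
      mul_le_mul_of_nonneg_right (pow_le_pow_left₀ hL.le hLQ K) (hF x).le
    rw [hl, div_pow, div_le_iff₀ (by positivity)]
    linarith
  refine fun x => ⟨hlo x, ?_⟩
  have h1 := low (d := d) (κ := κ) hp hq0 (hq κ hκ) (fun x => (hF x).le) (hkx x)
  rw [Wi_eig hW, ho, mul_one] at h1
  have h2 : L ^ kx x ≤ Q ^ kx x := pow_le_pow_left₀ hL.le hLQ _
  have h3 : F x ≤ (Q / q) ^ kx x := by
    rw [div_pow, le_div_iff₀ (by positivity)]
    linarith
  refine h3.trans ?_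
  rw [hu]
  exact Finset.single_le_sum (f := fun x => (Q / q) ^ kx x) (fun x _ => by positivity)
    (Finset.mem_univ x)

end H729P
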