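import Pool.Agent.Run7.h729.Iso.Fy5

/-!
# The logarithm of the eigenvalue at complex arguments and all angles
-/

set_option autoImplicit false

namespace H729I
open H906K Pool.Agent.H974R3 Polynomial Complex Filter Topology

/-- **the logarithm of the eigenvalue is quadratic up to a small error** -/
theorem log_cxa : ∃ r K : ℝ, 0 < r ∧ r < 1 / 10000 ∧ 0 < K ∧ ∀ n : ℕ, 1 ≤ n →
    ∀ (t : (PowerSeries ℂ)[X]) (w : Pat (2 * n + 1) → PowerSeries ℂ) (μ : Pat (2 * n + 1) → ℝ)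
      (g : ℕ → ℝ), Eg n t w μ → Lb n t g → ∀ α : ℂ, ‖α‖ ≤ r → ∀ θ ∈ Set.Icc 0 Real.pi,
        ‖ev α (lgs (tz n t ((ph θ : ℂ) * I)))
          - ((Real.cos θ / (2 * n + 1) : ℝ) : ℂ) * (I * α)
          + ((3 * Real.sin θ / (2 * Real.pi * (2 * n + 1)) : ℝ) : ℂ) * α ^ 2‖
          ≤ K * Real.sin θ * (‖α‖ / (2 * n + 1) ^ 3 + ‖α‖ ^ 2 / (2 * n + 1) ^ 2) := by
  obtain ⟨r, K, hr, hr', hK, h1⟩ := lc_all
  obtain ⟨K2, hK2, h2⟩ := main_asy
  refine ⟨r / 2, K2 + K2 + (1 / r) ^ 2 * K, by positivity, by linarith, by positivity, ?_⟩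
  intro n hn t w μ g h hb α hα θ hθ
  obtain ⟨e, e0, es, he⟩ := h1 n hn t w μ h
  obtain ⟨f, g', v, D, hc, -, -, hA⟩ := h2 n hn
  obtain ⟨a1, a2⟩ := hA _ hθ
  have hN0 : (0 : ℝ) < 2 * n + 1 := by positivity
  have hpi := Real.pi_pos
  have hs0 : 0 ≤ Real.sin θ := Real.sin_nonneg_of_mem_Icc hθ
  have hs1 := Real.sin_le_one θ
  set S0 := Real.sin θ with hS0
  set C0 := Real.cos θ with hC0
  set N : ℝ := 2 * n + 1 with hN
  have hs := su_lgs hb hn hθ
  have hαr : ‖α‖ ≤ r := by linarith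
  have hsum : Summable (fun k => PowerSeries.coeff k (lgs (tz n t ((ph θ : ℂ) * I)))
      * (α : ℂ) ^ k) :=
    (Su.nz (Su.mono (norm_nonneg _) (by linarith) hs)).of_norm
  obtain ⟨c1, c2⟩ := lc_vD h hc hθ
  have hle0 : ∀ k, 3 ≤ k → ‖PowerSeries.coeff k (lgs (tz n t ((ph θ : ℂ) * I)))‖ * r ^ k
      ≤ S0 * e k := fun k hk => he k hk θ hθ
  unfold lc at c1 c2
  have hsplit : ev α (lgs (tz n t ((ph θ : ℂ) * I)))
      = (((v θ / N : ℝ) : ℂ) * (I * α) - ((D θ / (2 * N ^ 2) : ℝ) : ℂ) * α ^ 2)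
        + ∑' k, PowerSeries.coeff (k + 3) (lgs (tz n t ((ph θ : ℂ) * I)))
          * (α : ℂ) ^ (k + 3) := by
    unfold ev
    rw [← hsum.sum_add_tsum_nat_add 3]
    congr 1
    rw [Finset.sum_range_succ, Finset.sum_range_succ, Finset.sum_range_one, lgs_zero, c1, c2, hN]
    push_cast
    ring
  have hes : Summable e := by
    refine summable_of_sum_range_le (c := K / (2 * n + 1) ^ 2) e0 fun L => ?_
    rcases L with _ | L
    · rw [Finset.range_zero, Finset.sum_empty]; positivity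
    · exact es L
  have he3 : Summable (fun k => e (k + 3)) := (summable_nat_add_iff 3).2 hes
  have he1 : ∑' k, e (k + 3) ≤ K / N ^ 2 := by
    refine he3.tsum_le_of_sum_range_le fun L => ?_
    have h1 : ∑ i ∈ Finset.range L, e (i + 3) ≤ ps e (L + 2) := by
      unfold ps
      rw [show L + 2 + 1 = L + 1 + 1 + 1 from rfl, Finset.sum_range_succ', Finset.sum_range_succ',
        Finset.sum_range_succ']
      have a0 := e0 0
      have a1 := e0 (0 + 1)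
      have a2 := e0 (0 + 1 + 1)
      have e : ∀ i, e (i + 1 + 1 + 1) = e (i + 3) := fun i => rfl
      simp only [e]
      linarith
    exact h1.trans (es _)
  set x := ‖α‖ / r with hx
  have hx0 : 0 ≤ x := by positivity
  have hx1 : x ≤ 1 := by rw [hx, div_le_one hr]; exact hαr
  have hle : ∀ k, ‖PowerSeries.coeff (k + 3) (lgs (tz n t ((ph θ : ℂ) * I)))
      * (α : ℂ) ^ (k + 3)‖ ≤ x ^ 2 * S0 * e (k + 3) := by
    intro k
    rw [norm_mul, norm_pow]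
    have h3 : ‖α‖ ^ (k + 3) = x ^ (k + 3) * r ^ (k + 3) := by
      rw [hx, ← mul_pow]
      congr 1
      field_simp
    have h4 : x ^ (k + 3) ≤ x ^ 2 := pow_le_pow_of_le_one hx0 hx1 (by omega)
    rw [h3]
    calc _ = x ^ (k + 3) * (‖PowerSeries.coeff (k + 3) (lgs (tz n t ((ph θ : ℂ) * I)))‖
          * r ^ (k + 3)) := by ring
      _ ≤ x ^ 2 * (S0 * e (k + 3)) := mul_le_mul h4 (hle0 (k + 3) (by omega)) (by positivity) (by positivity)
      _ = _ := by ring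
  have htail : ‖∑' k, PowerSeries.coeff (k + 3) (lgs (tz n t ((ph θ : ℂ) * I)))
      * (α : ℂ) ^ (k + 3)‖ ≤ (1 / r) ^ 2 * K * (S0 * (‖α‖ ^ 2 / N ^ 2)) := by
    refine (tsum_of_norm_bounded (he3.mul_left _).hasSum hle).trans ?_
    rw [tsum_mul_left]
    calc x ^ 2 * S0 * ∑' k, e (k + 3) ≤ x ^ 2 * S0 * (K / N ^ 2) :=
          mul_le_mul_of_nonneg_left he1 (by positivity)
      _ = _ := by
        rw [hx, div_pow]
        ring
  rw [hsplit]
  set S := ∑' k, PowerSeries.coeff (k + 3) (lgs (tz n t ((ph θ : ℂ) * I)))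
      * (α : ℂ) ^ (k + 3) with hS
  have e1 : (((v θ / N : ℝ) : ℂ) * (I * α) - ((D θ / (2 * N ^ 2) : ℝ) : ℂ) * α ^ 2) + S
        - ((C0 / N : ℝ) : ℂ) * (I * α) + ((3 * S0 / (2 * Real.pi * N) : ℝ) : ℂ) * α ^ 2
      = (((v θ - C0) / N : ℝ) : ℂ) * (I * α)
        - ((1 / (4 * Real.pi * N) * (2 * Real.pi * D θ / N - 6 * S0) : ℝ) : ℂ) * α ^ 2 + S := by
    have e2 : 1 / (4 * Real.pi * N) * (2 * Real.pi * D θ / N - 6 * S0)
        = D θ / (2 * N ^ 2) - 3 * S0 / (2 * Real.pi * N) := by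
      field_simp
      ring
    rw [e2]
    push_cast
    ring
  rw [e1]
  have n1 : ‖(((v θ - C0) / N : ℝ) : ℂ) * (I * α)‖ ≤ K2 * (S0 * (‖α‖ / N ^ 3)) := by
    rw [norm_mul, norm_mul, Complex.norm_I, one_mul, Complex.norm_real, Real.norm_eq_abs, abs_div,
      abs_of_pos hN0]
    have q1 : |v θ - C0| ≤ K2 * S0 / N ^ 2 := by
      refine a1.trans ?_
      apply div_le_div_of_nonneg_right _ (by positivity)
      have : S0 ^ 2 ≤ S0 := by nlinarith
      exact mul_le_mul_of_nonneg_left this hK2.le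
    calc |v θ - C0| / N * ‖α‖ ≤ (K2 * S0 / N ^ 2) / N * ‖α‖ := by gcongr
      _ = _ := by field_simp
  have n2 : ‖((1 / (4 * Real.pi * N) * (2 * Real.pi * D θ / N - 6 * S0) : ℝ) : ℂ) * α ^ 2‖
      ≤ K2 * (S0 * (‖α‖ ^ 2 / N ^ 2)) := by
    rw [norm_mul, norm_pow, Complex.norm_real, Real.norm_eq_abs, abs_mul, abs_of_nonneg (by positivity)]
    have h5 : 1 / (4 * Real.pi * N) ≤ 1 / N := by
      apply one_div_le_one_div_of_le hN0
      nlinarith [Real.pi_gt_three]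
    calc _ ≤ 1 / N * (K2 * S0 / N) * ‖α‖ ^ 2 := by
          apply mul_le_mul_of_nonneg_right _ (by positivity)
          exact mul_le_mul h5 a2 (abs_nonneg _) (by positivity)
      _ = _ := by ring
  have h6 := norm_add_le ((((v θ - C0) / N : ℝ) : ℂ) * (I * α)
        - ((1 / (4 * Real.pi * N) * (2 * Real.pi * D θ / N - 6 * S0) : ℝ) : ℂ) * α ^ 2) S
  have h7 := norm_sub_le ((((v θ - C0) / N : ℝ) : ℂ) * (I * α))
    (((1 / (4 * Real.pi * N) * (2 * Real.pi * D θ / N - 6 * S0) : ℝ) : ℂ) * α ^ 2)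
  have p1 : 0 ≤ S0 * (‖α‖ / N ^ 3) := by positivity
  have p2 : 0 ≤ S0 * (‖α‖ ^ 2 / N ^ 2) := by positivity
  have p3 : 0 ≤ (1 / r) ^ 2 * K := by positivity
  have p4 := mul_nonneg p3 p1
  have p5 := mul_nonneg hK2.le p1
  have p6 := mul_nonneg hK2.le p2
  have e9 : (K2 + K2 + (1 / r) ^ 2 * K) * S0 * (‖α‖ / N ^ 3 + ‖α‖ ^ 2 / N ^ 2)
      = (K2 + K2 + (1 / r) ^ 2 * K) * (S0 * (‖α‖ / N ^ 3))
        + (K2 + K2 + (1 / r) ^ 2 * K) * (S0 * (‖α‖ ^ 2 / N ^ 2)) := by ring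
  rw [e9]
  nlinarith

end H729I
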