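import Pool.Agent.Run7.h729.Ld.Cnc
import Pool.Agent.Run7.h729.Ld.Lca

/-!
# The common positive eigenfunction
-/

set_option autoImplicit false

namespace H729P
open Filter Topology Set

variable {X B : Type*} [Fintype X] [Fintype B] {d : B → X → ℝ} {τ : B → X → X}

/-- common eigenfunctions at the limit points -/
theorem eig_lim_fam {ι : Type*} {P : ι → B → ℝ} {κ : ℝ} {Λ : ι → ℝ → ℂ}
    (hΛ : ∀ i, ContinuousAt (Λ i) κ) (h : ∀ᶠ κ' in 𝓝[≠] κ, ∃ G : X → ℂ,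
    (∃ x, G x ≠ 0) ∧ ∀ i x, V (P i) d τ κ' G x = Λ i κ' * G x) :
    ∃ G : X → ℂ, (∃ x, G x ≠ 0) ∧ ∀ i x, V (P i) d τ κ G x = Λ i κ * G x := by
  classical
  set U : Ultrafilter ℝ := Ultrafilter.of (𝓝[≠] κ) with hU
  have hUle : (U : Filter ℝ) ≤ 𝓝[≠] κ := Ultrafilter.of_le _
  have hUn : (U : Filter ℝ) ≤ 𝓝 κ := hUle.trans nhdsWithin_le_nhds
  have hUI := hUle h
  have hex : ∀ κ', ∃ G : X → ℂ, (∃ G : X → ℂ, (∃ x, G x ≠ 0) ∧
      ∀ i x, V (P i) d τ κ' G x = Λ i κ' * G x) →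
      (∀ x, ‖G x‖ ≤ 1) ∧ 1 ≤ ∑ x, ‖G x‖ ∧ ∀ i x, V (P i) d τ κ' G x = Λ i κ' * G x := by
    intro κ'
    by_cases hκ' : ∃ G : X → ℂ, (∃ x, G x ≠ 0) ∧ ∀ i x, V (P i) d τ κ' G x = Λ i κ' * G x
    · obtain ⟨G, ⟨x1, hx1⟩, hG⟩ := hκ'
      obtain ⟨x0, -, hx0⟩ := Finset.exists_max_image Finset.univ (fun x => ‖G x‖)
        ⟨x1, Finset.mem_univ x1⟩
      have hpos : 0 < ‖G x0‖ := lt_of_lt_of_le (norm_pos_iff.2 hx1) (hx0 x1 (Finset.mem_univ _))
      have hcoe : ‖((‖G x0‖⁻¹ : ℝ) : ℂ)‖ = ‖G x0‖⁻¹ := by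
        rw [Complex.norm_real, Real.norm_of_nonneg (inv_pos.2 hpos).le]
      refine ⟨fun x => ((‖G x0‖⁻¹ : ℝ) : ℂ) * G x, fun _ => ⟨fun x => ?_, ?_, fun i x => ?_⟩⟩
      · rw [norm_mul, hcoe, inv_mul_le_iff₀ hpos, mul_one]
        exact hx0 x (Finset.mem_univ _)
      · have h1 : ‖((‖G x0‖⁻¹ : ℝ) : ℂ) * G x0‖ = 1 := by
          rw [norm_mul, hcoe, inv_mul_cancel₀ hpos.ne']
        rw [← h1]
        exact Finset.single_le_sum (f := fun x => ‖((‖G x0‖⁻¹ : ℝ) : ℂ) * G x‖)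
          (fun x _ => norm_nonneg _) (Finset.mem_univ x0)
      · rw [V_cmul, hG]
        ring
    · exact ⟨fun _ => 0, fun h => absurd h hκ'⟩
  choose Gf hGf using hex
  have hcomp : IsCompact (Set.pi univ (fun _ : X => Metric.closedBall (0 : ℂ) 1)) :=
    isCompact_univ_pi fun _ => isCompact_closedBall _ _
  have hmem : ∀ᶠ κ in (U : Filter ℝ), Gf κ ∈ Set.pi univ (fun _ : X => Metric.closedBall (0 : ℂ) 1) := by
    refine mem_of_superset hUI fun κ' hκ' => ?_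
    intro y _
    rw [mem_closedBall_zero_iff]
    exact (hGf κ' hκ').1 y
  obtain ⟨G, -, hGt⟩ := hcomp.ultrafilter_le_nhds (U.map Gf) (by
    rw [le_principal_iff]; exact hmem)
  have hGt' : Tendsto Gf (U : Filter ℝ) (𝓝 G) := hGt
  have hGy : ∀ y, Tendsto (fun κ => Gf κ y) (U : Filter ℝ) (𝓝 (G y)) := fun y =>
    ((continuous_apply y).tendsto G).comp hGt'
  have hid : Tendsto (fun κ : ℝ => κ) (U : Filter ℝ) (𝓝 κ) := hUn
  have hGne : 1 ≤ ∑ x, ‖G x‖ := by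
    have h1 : Tendsto (fun κ => ∑ x, ‖Gf κ x‖) (U : Filter ℝ) (𝓝 (∑ x, ‖G x‖)) :=
      tendsto_finsetSum _ fun x _ => (hGy x).norm
    refine ge_of_tendsto h1 ?_
    exact mem_of_superset hUI fun κ' hκ' => (hGf κ' hκ').2.1
  refine ⟨G, ?_, fun i y => ?_⟩
  · by_contra hcon
    push Not at hcon
    have : ∑ x, ‖G x‖ = 0 := Finset.sum_eq_zero fun x _ => by rw [hcon x, norm_zero]
    linarith
  · have hΛt : Tendsto (Λ i) (U : Filter ℝ) (𝓝 (Λ i κ)) := (hΛ i).tendsto.mono_left hUn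
    have h1 : Tendsto (fun κ => V (P i) d τ κ (Gf κ) y) (U : Filter ℝ) (𝓝 (V (P i) d τ κ G y)) := by
      unfold V
      refine tendsto_finsetSum _ fun b _ => ?_
      refine Tendsto.mul ?_ (hGy _)
      refine (Complex.continuous_ofReal.tendsto _).comp (Tendsto.mul tendsto_const_nhds ?_)
      exact (Real.continuous_exp.tendsto _).comp (hid.mul tendsto_const_nhds)
    have h2 : Tendsto (fun κ => Λ i κ * Gf κ y) (U : Filter ℝ) (𝓝 (Λ i κ * G y)) := hΛt.mul (hGy y)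
    refine tendsto_nhds_unique h1 (h2.congr' ?_)
    refine mem_of_superset hUI fun κ' hκ' => ?_
    exact ((hGf κ' hκ').2.2 i y).symm

end H729P

namespace H729I
open H906K Pool.Agent.H974R3 Polynomial Complex Filter Topology H729P

variable {n : ℕ} {t : (PowerSeries ℂ)[X]} {w : Pat (2 * n + 1) → PowerSeries ℂ}
  {μ : Pat (2 * n + 1) → ℝ} {g : ℕ → ℝ}

/-- the weights of a row with the angle `θ` -/
noncomputable def pT (n : ℕ) (θ : ℝ) (b : Fin (2 * n + 1) → Bool) : ℝ := rw1 n (prob θ) b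

theorem pT_half (n : ℕ) : pT n (Real.pi / 2) = pX n := by
  funext b
  unfold pT
  rw [rw1_half]
  rfl

theorem pT_nonneg (n : ℕ) {θ : ℝ} (hθ : θ ∈ Set.Icc 0 Real.pi) (b : Fin (2 * n + 1) → Bool) :
    0 ≤ pT n θ b := rw1_nonneg n (prob_mem hθ) b

/-- the eigenvalue for the angle `θ` -/
noncomputable def LT (t : (PowerSeries ℂ)[X]) (n : ℕ) (s θ κ : ℝ) : ℂ :=
  ev (-I * ((s * κ : ℝ) : ℂ)) (tz n t ((ph θ : ℂ) * I))

theorem LT_cont (h : Eg n t w μ) {s κ θ : ℝ} (hκ : |s * κ| < 1 / 10000)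
    (hθ : θ ∈ Set.Icc 0 Real.pi) : ContinuousAt (LT t n s θ) κ := by
  have hz : ‖-I * ((s * κ : ℝ) : ℂ)‖ < 1 / 10000 := by rwa [LX_norm]
  refine ContinuousAt.comp (f := fun κ : ℝ => -I * ((s * κ : ℝ) : ℂ))
    (ev_deriv (h.su _ hθ) hz).2.continuousAt ?_
  fun_prop

theorem VT_eig (h : Eg n t w μ) {s κ θ : ℝ} (hκ : |s * κ| ≤ 1 / 10000)
    (hθ : θ ∈ Set.Icc 0 Real.pi) (x : XX n) :
    V (pT n θ) (dX n s) (tX n) κ (fun y => Ps h (-I * ((s * κ : ℝ) : ℂ)) y.1) x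
      = LT t n s θ κ * Ps h (-I * ((s * κ : ℝ) : ℂ)) x.1 := by
  have hz : ‖-I * ((s * κ : ℝ) : ℂ)‖ ≤ 1 / 10000 := by rwa [LX_norm]
  unfold LT
  rw [← Ps_eig h hz hθ x.1]
  unfold V
  refine Finset.sum_congr rfl fun b _ => ?_
  unfold pT dX tX
  have e : ((Real.exp (κ * (s * ((dTc (2 * n) b x.1 : ℝ) / (2 * n + 1)))) : ℝ) : ℂ)
      = cexp ((dTc (2 * n) b x.1 : ℂ) / (2 * n + 1) * I * (-I * ((s * κ : ℝ) : ℂ))) := by
    rw [Complex.ofReal_exp]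
    congr 1
    push_cast
    linear_combination ((κ : ℂ) * (s * ((dTc (2 * n) b x.1 : ℂ) / (2 * n + 1)))) * Complex.I_sq
  rw [Complex.ofReal_mul, e]

theorem com_eig (h : Eg n t w μ) {s κ : ℝ} (hs : s ≠ 0) (hκ : |s * κ| < 1 / 10000) :
    ∃ G : XX n → ℂ, (∃ x, G x ≠ 0) ∧ ∀ (θ : Set.Icc (0 : ℝ) Real.pi) (x : XX n),
      V (pT n θ.1) (dX n s) (tX n) κ G x = LT t n s θ.1 κ * G x := by
  refine eig_lim_fam (P := fun θ : Set.Icc (0 : ℝ) Real.pi => pT n θ.1)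
    (Λ := fun θ => LT t n s θ.1) (fun θ => LT_cont h hκ θ.2) ?_
  have hd : Su (1 / 10000) (dt h : PowerSeries ℂ) := (dt h).2
  have han : AnalyticOnNhd ℂ (fun z => ev z (dt h : PowerSeries ℂ)) (Metric.ball 0 (1 / 10000)) :=
    (ev_an hd).analyticOnNhd Metric.isOpen_ball
  have hz : -I * ((s * κ : ℝ) : ℂ) ∈ Metric.ball (0 : ℂ) (1 / 10000) := by
    rw [mem_ball_zero_iff, LX_norm]; exact hκ
  have h1 : ∀ᶠ z in 𝓝[≠] (-I * ((s * κ : ℝ) : ℂ)), ev z (dt h : PowerSeries ℂ) ≠ 0 := by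
    by_contra hcon
    rw [Filter.not_eventually] at hcon
    have h2 := han.eqOn_zero_of_preconnected_of_frequently_eq_zero
      (convex_ball (0 : ℂ) (1 / 10000)).isPreconnected hz (hcon.mono fun z hz => not_not.1 hz)
    have h3 := h2 (x := 0) (by rw [mem_ball_zero_iff, norm_zero]; norm_num)
    exact dt_zero h h3
  have h2 : Tendsto (fun κ' : ℝ => -I * ((s * κ' : ℝ) : ℂ)) (𝓝[≠] κ)
      (𝓝[≠] (-I * ((s * κ : ℝ) : ℂ))) := by
    refine tendsto_nhdsWithin_of_tendsto_nhds_of_eventually_within _ ?_ ?_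
    · have : Continuous (fun κ' : ℝ => -I * ((s * κ' : ℝ) : ℂ)) := by fun_prop
      exact (this.tendsto κ).mono_left nhdsWithin_le_nhds
    · filter_upwards [self_mem_nhdsWithin] with κ' hκ'
      intro h0
      have hI : (-I : ℂ) ≠ 0 := neg_ne_zero.2 Complex.I_ne_zero
      have h3 := mul_left_cancel₀ hI h0
      have h4 : s * κ' = s * κ := Complex.ofReal_injective h3
      exact hκ' (mul_left_cancel₀ hs h4)
  have h3 : ∀ᶠ κ' in 𝓝[≠] κ, |s * κ'| < 1 / 10000 := by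
    have hc : Continuous (fun κ' : ℝ => |s * κ'|) := by fun_prop
    exact (hc.continuousAt.eventually (gt_mem_nhds hκ)).filter_mono nhdsWithin_le_nhds
  filter_upwards [h2.eventually h1, h3] with κ' h4 h5
  refine ⟨fun y => Ps h (-I * ((s * κ' : ℝ) : ℂ)) y.1, ?_, fun θ => VT_eig h h5.le θ.2⟩
  by_contra hcon
  push Not at hcon
  have hz' : ‖-I * ((s * κ' : ℝ) : ℂ)‖ ≤ 1 / 10000 := by rw [LX_norm]; exact h5.le
  have h6 := n1_le h (F := Ps h (-I * ((s * κ' : ℝ) : ℂ))) (B := 0) (fun σ hσ => by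
    rw [hcon ⟨σ, hσ⟩, norm_zero])
  have h7 := (mm_le h (Ps h (-I * ((s * κ' : ℝ) : ℂ)))).trans h6
  have h8 : mm μ (Ps h (-I * ((s * κ' : ℝ) : ℂ))) = 0 := norm_le_zero_iff.1 h7
  have h9 := Ps_mu h hz'
  unfold mm at h8
  rw [h8] at h9
  exact h4 h9.symm

/-- the logarithm of the eigenvalue -/
noncomputable def lT (t : (PowerSeries ℂ)[X]) (n : ℕ) (s κ θ : ℝ) : ℝ :=
  (ev (-I * ((s * κ : ℝ) : ℂ)) (lgs (tz n t ((ph θ : ℂ) * I)))).re

/-- **the common positive eigenfunction** -/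
theorem com_pos (h : Eg n t w μ) (hb : Lb n t g) (hn : 1 ≤ n) {s κ : ℝ} (hs : s ≠ 0)
    (hκ0 : 0 ≤ κ) (hκ : |s| * κ < 1 / 10000) :
    ∃ F : XX n → ℝ, (∀ x, 0 < F x) ∧ ∀ θ ∈ Set.Icc 0 Real.pi, ∀ x,
      W (pT n θ) (dX n s) (tX n) κ F x = Real.exp (lT t n s κ θ) * F x := by
  have hκ' : |s * κ| < 1 / 10000 := by rwa [abs_mul, abs_of_nonneg hκ0]
  obtain ⟨F, L, hL, hF, hΛ, hW⟩ := gdX h hs hκ0 hκ κ ⟨hκ0, le_rfl⟩
  obtain ⟨G, ⟨x1, hx1⟩, hG⟩ := com_eig h hs hκ'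
  have hp : ∀ b, 0 < pX n b := fun _ => by unfold pX; positivity
  obtain ⟨K, w', hw', hst⟩ := word_start n
  have hK : ∀ x, Rc (tX n) K x (oX n) := by
    intro x
    obtain ⟨h1, h2⟩ := rcX_word hw' x
    have : (⟨w' x.1, h1⟩ : XX n) = oX n := Subtype.ext (hst x.1)
    rwa [this] at h2
  obtain ⟨z, -, hz⟩ := Finset.exists_min_image
    (Finset.univ : Finset ((Fin (2 * n + 1) → Bool) × XX n))
    (fun z => pX n z.1 * Real.exp (κ * dX n s z.1 z.2)) ⟨(fun _ => false, oX n), Finset.mem_univ _⟩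
  have hGh : ∀ x, V (pX n) (dX n s) (tX n) κ G x = L * G x := by
    intro x
    have h1 := hG ⟨Real.pi / 2, half_mem⟩ x
    rw [pT_half] at h1
    rw [h1, ← hΛ]
    rfl
  obtain ⟨e, he⟩ := uniq hp (mul_pos (hp z.1) (Real.exp_pos (κ * dX n s z.1 z.2)))
    (fun b x => hz (b, x) (Finset.mem_univ _)) hK hL hF hW hGh
  have he0 : e ≠ 0 := by
    rintro rfl
    exact hx1 (by rw [he, zero_mul])
  refine ⟨F, hF, fun θ hθ x => ?_⟩
  have hGe : G = fun y => e * (F y : ℂ) := funext he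
  have h1 := hG ⟨θ, hθ⟩ x
  rw [hGe, V_cmul] at h1
  beta_reduce at h1
  have h2 : V (pT n θ) (dX n s) (tX n) κ (fun y => (F y : ℂ)) x = LT t n s θ κ * F x := by
    apply mul_left_cancel₀ he0
    rw [h1]
    ring
  have h3 : V (pT n θ) (dX n s) (tX n) κ (fun y => (F y : ℂ)) x
      = ((W (pT n θ) (dX n s) (tX n) κ F x : ℝ) : ℂ) := by
    unfold V W
    push_cast
    rfl
  have h4 : 0 ≤ W (pT n θ) (dX n s) (tX n) κ F x := by
    unfold W
    exact Finset.sum_nonneg fun b _ => mul_nonneg (mul_nonneg (pT_nonneg n hθ b) (Real.exp_pos _).le)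
      (hF _).le
  have h5 := ev_tz h hb hn hθ (z := -I * ((s * κ : ℝ) : ℂ)) (by rwa [LX_norm])
  have h6 := congrArg norm (h3.symm.trans h2)
  rw [norm_mul, Complex.norm_real, Complex.norm_real, Real.norm_of_nonneg h4,
    Real.norm_of_nonneg (hF x).le] at h6
  rw [h6]
  unfold LT lT
  rw [h5, Complex.norm_exp]

/-- the exponential moments against the eigenfunction -/
theorem EE_env {s κ : ℝ} {F : XX n → ℝ} (hF : ∀ θ ∈ Set.Icc 0 Real.pi, ∀ x,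
      W (pT n θ) (dX n s) (tX n) κ F x = Real.exp (lT t n s κ θ) * F x) {ϑ : ℕ → ℝ}
    (hϑ : ∀ i, ϑ i ∈ Set.Icc 0 Real.pi) (M : ℕ) :
    EE (det n ϑ) M (fun c => Real.exp (κ * (s * (dis c / (2 * n + 1)))) * F ⟨pat c, ⟨M, c, rfl⟩⟩)
      = Real.exp (∑ i ∈ Finset.range M, lT t n s κ (ϑ i)) * F (oX n) := by
  induction M with
  | zero =>
    rw [EE_zero, Finset.range_zero, Finset.sum_empty, Real.exp_zero, one_mul]
    show Real.exp (κ * (s * (((0 : ℤ) : ℝ) / (2 * n + 1)))) * F (oX n) = F (oX n)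
    simp
  | succ M ih =>
    rw [EE_succ, Finset.sum_range_succ, Real.exp_add, mul_comm (Real.exp _) (Real.exp _), mul_assoc,
      ← ih, ← EE_mul]
    congr 1
    funext c
    have h1 := hF (ϑ M) (hϑ M) ⟨pat c, ⟨M, c, rfl⟩⟩
    rw [show Real.exp (lT t n s κ (ϑ M)) * (Real.exp (κ * (s * (dis c / (2 * n + 1))))
        * F ⟨pat c, ⟨M, c, rfl⟩⟩) = Real.exp (κ * (s * (dis c / (2 * n + 1))))
          * (Real.exp (lT t n s κ (ϑ M)) * F ⟨pat c, ⟨M, c, rfl⟩⟩) by ring, ← h1]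
    unfold W
    rw [Finset.mul_sum]
    refine Finset.sum_congr rfl fun b _ => ?_
    obtain ⟨r1, r2⟩ := run_app c b
    have e0 : (⟨pat (app c b), ⟨M + 1, app c b, rfl⟩⟩ : XX n) = tX n b ⟨pat c, ⟨M, c, rfl⟩⟩ :=
      Subtype.ext r1
    rw [e0, r2]
    have e1 : rw1 n (prob (det n ϑ M c)) b = pT n (ϑ M) b := rfl
    rw [e1, smul_eq_mul]
    unfold dX
    have e2 : Real.exp (κ * (s * ((dis c + (dTc (2 * n) b (pat c) : ℝ)) / (2 * n + 1))))
        = Real.exp (κ * (s * (dis c / (2 * n + 1))))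
          * Real.exp (κ * (s * ((dTc (2 * n) b (pat c) : ℝ) / (2 * n + 1)))) := by
      rw [← Real.exp_add]
      congr 1
      ring
    rw [e2]
    ring

end H729I
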