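import Pool.Agent.Run7.h729.Ld.Pf2
import Pool.Agent.Run7.h729.Ld.Lcx

/-!
# Exponential moments of the winding in long cylinders
-/

set_option autoImplicit false

namespace H729P
open Filter Topology Set

variable {X B : Type*} [Fintype X] [Fintype B] {p : B → ℝ} {d : B → X → ℝ} {τ : B → X → X}

/-- eigenfunctions at the limit points -/
theorem eig_lim {κ : ℝ} {Λ : ℝ → ℂ} (hΛ : ContinuousAt Λ κ) (h : ∀ᶠ κ' in 𝓝[≠] κ, ∃ G : X → ℂ,
    (∃ x, G x ≠ 0) ∧ ∀ x, V p d τ κ' G x = Λ κ' * G x) :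
    ∃ G : X → ℂ, (∃ x, G x ≠ 0) ∧ ∀ x, V p d τ κ G x = Λ κ * G x := by
  classical
  set U : Ultrafilter ℝ := Ultrafilter.of (𝓝[≠] κ) with hU
  have hUle : (U : Filter ℝ) ≤ 𝓝[≠] κ := Ultrafilter.of_le _
  have hUn : (U : Filter ℝ) ≤ 𝓝 κ := hUle.trans nhdsWithin_le_nhds
  have hUI := hUle h
  have hex : ∀ κ', ∃ G : X → ℂ, (∃ G : X → ℂ, (∃ x, G x ≠ 0) ∧ ∀ x, V p d τ κ' G x = Λ κ' * G x) →
      (∀ x, ‖G x‖ ≤ 1) ∧ 1 ≤ ∑ x, ‖G x‖ ∧ ∀ x, V p d τ κ' G x = Λ κ' * G x := by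
    intro κ'
    by_cases hκ' : ∃ G : X → ℂ, (∃ x, G x ≠ 0) ∧ ∀ x, V p d τ κ' G x = Λ κ' * G x
    · obtain ⟨G, ⟨x1, hx1⟩, hG⟩ := hκ'
      obtain ⟨x0, -, hx0⟩ := Finset.exists_max_image Finset.univ (fun x => ‖G x‖)
        ⟨x1, Finset.mem_univ x1⟩
      have hpos : 0 < ‖G x0‖ := lt_of_lt_of_le (norm_pos_iff.2 hx1) (hx0 x1 (Finset.mem_univ _))
      have hcoe : ‖((‖G x0‖⁻¹ : ℝ) : ℂ)‖ = ‖G x0‖⁻¹ := by
        rw [Complex.norm_real, Real.norm_of_nonneg (inv_pos.2 hpos).le]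
      refine ⟨fun x => ((‖G x0‖⁻¹ : ℝ) : ℂ) * G x, fun _ => ⟨fun x => ?_, ?_, fun x => ?_⟩⟩
      · rw [norm_mul, hcoe, inv_mul_le_iff₀ hpos, mul_one]
        exact hx0 x (Finset.mem_univ _)
      · have h1 : ‖((‖G x0‖⁻¹ : ℝ) : ℂ) * G x0‖ = 1 := by
          rw [norm_mul, hcoe, inv_mul_cancel₀ hpos.ne']
        rw [← h1]
        exact Finset.single_le_sum (f := fun x => ‖((‖G x0‖⁻¹ : ℝ) : ℂ) * G x‖)
          (fun x _ => norm_nonneg _) (Finset.mem_univ x0)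
      · rw [V_cmul, hG]
        ring
    · exact ⟨fun _ => 0, fun h => absurd h hκ'⟩
  choose Gf hGf using hex
  have hcomp : IsCompact (Set.pi univ (fun _ : X => Metric.closedBall (0 : ℂ) 1)) :=
    isCompact_univ_pi fun _ => isCompact_closedBall _ _
  have hmem : ∀ᶠ κ in (U : Filter ℝ), Gf κ ∈ Set.pi univ (fun _ : X => Metric.closedBall (0 : ℂ) 1) := by
    refine mem_of_superset hUI fun κ' hκ' => ?_
    intro y _
    rw [mem_closedBall_zero_iff]
    exact (hGf κ' hκ').1 y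
  obtain ⟨G, -, hGt⟩ := hcomp.ultrafilter_le_nhds (U.map Gf) (by
    rw [le_principal_iff]; exact hmem)
  have hGt' : Tendsto Gf (U : Filter ℝ) (𝓝 G) := hGt
  have hGy : ∀ y, Tendsto (fun κ => Gf κ y) (U : Filter ℝ) (𝓝 (G y)) := fun y =>
    ((continuous_apply y).tendsto G).comp hGt'
  have hΛt : Tendsto Λ (U : Filter ℝ) (𝓝 (Λ κ)) := hΛ.tendsto.mono_left hUn
  have hid : Tendsto (fun κ : ℝ => κ) (U : Filter ℝ) (𝓝 κ) := hUn
  have hGne : 1 ≤ ∑ x, ‖G x‖ := by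
    have h1 : Tendsto (fun κ => ∑ x, ‖Gf κ x‖) (U : Filter ℝ) (𝓝 (∑ x, ‖G x‖)) :=
      tendsto_finsetSum _ fun x _ => (hGy x).norm
    refine ge_of_tendsto h1 ?_
    exact mem_of_superset hUI fun κ' hκ' => (hGf κ' hκ').2.1
  refine ⟨G, ?_, fun y => ?_⟩
  · by_contra hcon
    push Not at hcon
    have : ∑ x, ‖G x‖ = 0 := Finset.sum_eq_zero fun x _ => by rw [hcon x, norm_zero]
    linarith
  · have h1 : Tendsto (fun κ => V p d τ κ (Gf κ) y) (U : Filter ℝ) (𝓝 (V p d τ κ G y)) := by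
      unfold V
      refine tendsto_finsetSum _ fun b _ => ?_
      refine Tendsto.mul ?_ (hGy _)
      refine (Complex.continuous_ofReal.tendsto _).comp (Tendsto.mul tendsto_const_nhds ?_)
      exact (Real.continuous_exp.tendsto _).comp (hid.mul tendsto_const_nhds)
    have h2 : Tendsto (fun κ => Λ κ * Gf κ y) (U : Filter ℝ) (𝓝 (Λ κ * G y)) := hΛt.mul (hGy y)
    refine tendsto_nhds_unique h1 (h2.congr' ?_)
    refine mem_of_superset hUI fun κ' hκ' => ?_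
    exact ((hGf κ' hκ').2.2 y).symm

theorem Rc_snoc {k : ℕ} {x y : X} (h : Rc τ k x y) (b : B) : Rc τ (k + 1) x (τ b y) := by
  induction k generalizing x with
  | zero =>
    have h' : x = y := h
    exact ⟨b, by rw [h']; rfl⟩
  | succ k ih =>
    obtain ⟨b', hb'⟩ := h
    exact ⟨b', ih hb'⟩

end H729P

namespace H729I
open H906K Pool.Agent.H974R3 Polynomial Complex Filter Topology H729P

variable {n : ℕ} {t : (PowerSeries ℂ)[X]} {w : Pat (2 * n + 1) → PowerSeries ℂ}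
  {μ : Pat (2 * n + 1) → ℝ}

/-- the reachable patterns -/
abbrev XX (n : ℕ) : Type := {σ : Pat (2 * n + 1) // Rch σ}

noncomputable instance (n : ℕ) : Fintype (XX n) := by
  classical exact Fintype.ofFinite (XX n)

noncomputable def pX (n : ℕ) (_ : Fin (2 * n + 1) → Bool) : ℝ := (1 / 2 : ℝ) ^ (2 * n + 1)

noncomputable def dX (n : ℕ) (s : ℝ) (b : Fin (2 * n + 1) → Bool) (x : XX n) : ℝ :=
  s * ((dTc (2 * n) b x.1 : ℝ) / (2 * n + 1))

noncomputable def tX (n : ℕ) (b : Fin (2 * n + 1) → Bool) (x : XX n) : XX n :=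
  ⟨Tc (2 * n) b x.1, x.2.step b⟩

/-- the wired pattern -/
noncomputable def oX (n : ℕ) : XX n := ⟨start n, rch_start⟩

/-- the eigenvalue -/
noncomputable def LX (t : (PowerSeries ℂ)[X]) (n : ℕ) (s κ : ℝ) : ℂ :=
  ev (-I * ((s * κ : ℝ) : ℂ)) (tz n t ((ph (Real.pi / 2) : ℂ) * I))

theorem LX_norm (s κ : ℝ) : ‖-I * ((s * κ : ℝ) : ℂ)‖ = |s * κ| := by
  rw [norm_mul, norm_neg, Complex.norm_I, one_mul, Complex.norm_real, Real.norm_eq_abs]

theorem LX_cont (h : Eg n t w μ) {s κ : ℝ} (hκ : |s * κ| < 1 / 10000) :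
    ContinuousAt (LX t n s) κ := by
  have hz : ‖-I * ((s * κ : ℝ) : ℂ)‖ < 1 / 10000 := by rwa [LX_norm]
  refine ContinuousAt.comp (f := fun κ : ℝ => -I * ((s * κ : ℝ) : ℂ))
    (ev_deriv (h.su _ half_mem) hz).2.continuousAt ?_
  fun_prop

theorem VX_eig (h : Eg n t w μ) {s κ : ℝ} (hκ : |s * κ| ≤ 1 / 10000) (x : XX n) :
    V (pX n) (dX n s) (tX n) κ (fun y => Ps h (-I * ((s * κ : ℝ) : ℂ)) y.1) x
      = LX t n s κ * Ps h (-I * ((s * κ : ℝ) : ℂ)) x.1 := by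
  have hz : ‖-I * ((s * κ : ℝ) : ℂ)‖ ≤ 1 / 10000 := by rwa [LX_norm]
  unfold LX
  rw [← Ps_eig h hz half_mem x.1]
  unfold V
  refine Finset.sum_congr rfl fun b _ => ?_
  rw [rw1_half]
  unfold pX dX tX
  have e : ((Real.exp (κ * (s * ((dTc (2 * n) b x.1 : ℝ) / (2 * n + 1)))) : ℝ) : ℂ)
      = cexp ((dTc (2 * n) b x.1 : ℂ) / (2 * n + 1) * I * (-I * ((s * κ : ℝ) : ℂ))) := by
    rw [Complex.ofReal_exp]
    congr 1
    push_cast
    linear_combination ((κ : ℂ) * (s * ((dTc (2 * n) b x.1 : ℂ) / (2 * n + 1)))) * Complex.I_sq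
  rw [Complex.ofReal_mul, e]

theorem hEX (h : Eg n t w μ) {s κ : ℝ} (hs : s ≠ 0) (hκ : |s * κ| < 1 / 10000) :
    ∃ G : XX n → ℂ, (∃ x, G x ≠ 0) ∧ ∀ x, V (pX n) (dX n s) (tX n) κ G x = LX t n s κ * G x := by
  refine eig_lim (LX_cont h hκ) ?_
  have hd : Su (1 / 10000) (dt h : PowerSeries ℂ) := (dt h).2
  have han : AnalyticOnNhd ℂ (fun z => ev z (dt h : PowerSeries ℂ)) (Metric.ball 0 (1 / 10000)) :=
    (ev_an hd).analyticOnNhd Metric.isOpen_ball
  have hz : -I * ((s * κ : ℝ) : ℂ) ∈ Metric.ball (0 : ℂ) (1 / 10000) := by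
    rw [mem_ball_zero_iff, LX_norm]; exact hκ
  have h1 : ∀ᶠ z in 𝓝[≠] (-I * ((s * κ : ℝ) : ℂ)), ev z (dt h : PowerSeries ℂ) ≠ 0 := by
    by_contra hcon
    rw [Filter.not_eventually] at hcon
    have h2 := han.eqOn_zero_of_preconnected_of_frequently_eq_zero
      (convex_ball (0 : ℂ) (1 / 10000)).isPreconnected hz (hcon.mono fun z hz => not_not.1 hz)
    have h3 := h2 (x := 0) (by rw [mem_ball_zero_iff, norm_zero]; norm_num)
    exact dt_zero h h3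
  have h2 : Tendsto (fun κ' : ℝ => -I * ((s * κ' : ℝ) : ℂ)) (𝓝[≠] κ)
      (𝓝[≠] (-I * ((s * κ : ℝ) : ℂ))) := by
    refine tendsto_nhdsWithin_of_tendsto_nhds_of_eventually_within _ ?_ ?_
    · have : Continuous (fun κ' : ℝ => -I * ((s * κ' : ℝ) : ℂ)) := by fun_prop
      exact (this.tendsto κ).mono_left nhdsWithin_le_nhds
    · filter_upwards [self_mem_nhdsWithin] with κ' hκ'
      intro h0
      have hI : (-I : ℂ) ≠ 0 := neg_ne_zero.2 Complex.I_ne_zero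
      have h3 := mul_left_cancel₀ hI h0
      have h4 : s * κ' = s * κ := Complex.ofReal_injective h3
      exact hκ' (mul_left_cancel₀ hs h4)
  have h3 : ∀ᶠ κ' in 𝓝[≠] κ, |s * κ'| < 1 / 10000 := by
    have hc : Continuous (fun κ' : ℝ => |s * κ'|) := by fun_prop
    exact (hc.continuousAt.eventually (gt_mem_nhds hκ)).filter_mono nhdsWithin_le_nhds
  filter_upwards [h2.eventually h1, h3] with κ' h4 h5
  refine ⟨fun y => Ps h (-I * ((s * κ' : ℝ) : ℂ)) y.1, ?_, VX_eig h h5.le⟩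
  by_contra hcon
  push Not at hcon
  have hz' : ‖-I * ((s * κ' : ℝ) : ℂ)‖ ≤ 1 / 10000 := by rw [LX_norm]; exact h5.le
  have h6 := n1_le h (F := Ps h (-I * ((s * κ' : ℝ) : ℂ))) (B := 0) (fun σ hσ => by
    rw [hcon ⟨σ, hσ⟩, norm_zero])
  have h7 := (mm_le h (Ps h (-I * ((s * κ' : ℝ) : ℂ)))).trans h6
  have h8 : mm μ (Ps h (-I * ((s * κ' : ℝ) : ℂ))) = 0 := norm_le_zero_iff.1 h7
  have h9 := Ps_mu h hz'
  unfold mm at h8
  rw [h8] at h9
  exact h4 h9.symm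

theorem rcX_pat : ∀ (K : ℕ) (c : Conf n K), Rc (tX n) K (oX n) ⟨pat c, ⟨K, c, rfl⟩⟩ := by
  intro K
  induction K with
  | zero =>
    intro c
    rfl
  | succ K ih =>
    intro c
    exact Rc_snoc (ih (fun i => c i.castSucc)) (c (Fin.last K))

theorem word_start (n : ℕ) : ∃ K w, IsWord (2 * n) K w ∧ ∀ σ, w σ = start n := by
  obtain ⟨K, w, hw, h⟩ := MK.phase1 n n le_rfl
  refine ⟨K, w, hw, fun σ => MK.std_unique (w σ) (start n) (h σ) fun j hj => ?_⟩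
  obtain ⟨a1, a2⟩ := p1_start n
  set v := (start n).1 (some (ix (2 * n) (2 * j))) with hv
  have hj2 : (ix (2 * n) (2 * j)).val = 2 * j := by
    show 2 * j % (2 * n + 1) = 2 * j
    exact Nat.mod_eq_of_lt (by omega)
  rcases hvc : v with _ | l
  · exfalso
    have h1 : (start n).1 none = some (ix (2 * n) (2 * j)) := by
      rw [← hvc, hv, (start n).2.inv]
    rw [a1] at h1
    have h2 := congrArg Fin.val (Option.some.inj h1)
    rw [hj2, Fin.val_last] at h2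
    omega
  · obtain ⟨i, hi, h3⟩ := a2 (ix (2 * n) (2 * j)) l (hv ▸ hvc)
    rw [hj2] at h3
    have h4 : l.val = 2 * j + 1 := by omega
    congr 1
    apply Fin.ext
    rw [h4]
    show 2 * j + 1 = (2 * j + 1) % (2 * n + 1)
    exact (Nat.mod_eq_of_lt (by omega)).symm

theorem rcX_word {K : ℕ} {w : Pat (2 * n + 1) → Pat (2 * n + 1)} (hw : IsWord (2 * n) K w) (x : XX n) :
    ∃ h : Rch (w x.1), Rc (tX n) K x ⟨w x.1, h⟩ := by
  induction hw with
  | id => exact ⟨x.2, rfl⟩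
  | step c w K _ ih =>
    obtain ⟨h, hr⟩ := ih
    exact ⟨h.step c, Rc_snoc hr c⟩

/-- **the eigenvalue is the leading one** -/
theorem gdX (h : Eg n t w μ) {s c : ℝ} (hs : s ≠ 0) (hc : 0 ≤ c) (hsc : |s| * c < 1 / 10000) :
    ∀ κ ∈ Set.Icc 0 c, Gd (pX n) (dX n s) (tX n) (LX t n s) κ := by
  have hsk : ∀ κ ∈ Set.Icc 0 c, |s * κ| < 1 / 10000 := fun κ hκ => by
    rw [abs_mul, abs_of_nonneg hκ.1]
    exact lt_of_le_of_lt (mul_le_mul_of_nonneg_left hκ.2 (abs_nonneg s)) hsc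
  obtain ⟨K, w', hw', hst⟩ := word_start n
  refine pf_main (o := oX n) (K := K) (fun _ => by unfold pX; positivity) ⟨fun _ => false⟩
    (fun x => ?_) (fun x => ?_) hc (fun κ hκ => LX_cont h (hsk κ hκ))
    (fun κ hκ => hEX h hs (hsk κ hκ)) ?_
  · obtain ⟨h1, h2⟩ := rcX_word hw' x
    have : (⟨w' x.1, h1⟩ : XX n) = oX n := Subtype.ext (hst x.1)
    rwa [this] at h2
  · obtain ⟨σ, K, c, rfl⟩ := x
    exact ⟨K, rcX_pat K c⟩
  · refine ⟨fun _ => 1, 1, one_pos, fun _ => one_pos, ?_, fun x => ?_⟩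
    · unfold LX
      rw [mul_zero, Complex.ofReal_zero, mul_zero, ev_at_zero, tz_c0 h.hT half_mem,
        Complex.ofReal_one]
    · unfold W pX
      simp only [zero_mul, Real.exp_zero, mul_one]
      rw [Finset.sum_const, Finset.card_univ, Fintype.card_fun, Fintype.card_bool, Fintype.card_fin,
        nsmul_eq_mul]
      push_cast
      rw [← mul_pow]
      norm_num

/-- exponential moments as iterates -/
theorem EE_W (s κ : ℝ) (M : ℕ) (G : XX n → ℝ) :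
    EE (hom n) M (fun c => Real.exp (κ * (s * (dis c / (2 * n + 1)))) * G ⟨pat c, ⟨M, c, rfl⟩⟩)
      = (W (pX n) (dX n s) (tX n) κ)^[M] G (oX n) := by
  induction M generalizing G with
  | zero =>
    rw [EE_zero]
    show Real.exp (κ * (s * (((0 : ℤ) : ℝ) / (2 * n + 1)))) * G (oX n) = G (oX n)
    simp
  | succ M ih =>
    rw [EE_succ, Function.iterate_succ_apply, ← ih]
    congr 1
    funext c
    unfold W
    rw [Finset.mul_sum]
    refine Finset.sum_congr rfl fun b _ => ?_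
    obtain ⟨r1, r2⟩ := run_app c b
    have e0 : (⟨pat (app c b), ⟨M + 1, app c b, rfl⟩⟩ : XX n) = tX n b ⟨pat c, ⟨M, c, rfl⟩⟩ :=
      Subtype.ext r1
    rw [e0, r2]
    have e1 : rw1 n (prob (hom n M c)) b = pX n b := by
      show rw1 n (prob (Real.pi / 2)) b = _
      rw [rw1_half]
      rfl
    rw [e1, smul_eq_mul]
    unfold dX
    have e2 : Real.exp (κ * (s * ((dis c + (dTc (2 * n) b (pat c) : ℝ)) / (2 * n + 1))))
        = Real.exp (κ * (s * (dis c / (2 * n + 1))))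
          * Real.exp (κ * (s * ((dTc (2 * n) b (pat c) : ℝ) / (2 * n + 1)))) := by
      rw [← Real.exp_add]
      congr 1
      ring
    rw [e2]
    ring

end H729I
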