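import Pool.Agent.Run7.h729.Ld.Cmn

/-!
# The exponential moments of the winding in adaptive environments
-/

set_option autoImplicit false

namespace H729I
open H906K Pool.Agent.H974R3 Polynomial Complex Filter Topology H729P

variable {n : ℕ}

/-- the winding -/
noncomputable def wA {M : ℕ} (θ : Strat n) (c : Conf n M) : ℝ :=
  2 * Real.pi / (2 * n + 1) * (dis c - ∑ i ∈ Finset.range M, Real.cos (θ i (rows c i)))

/-- the height -/
noncomputable def hA {M : ℕ} (θ : Strat n) (c : Conf n M) : ℝ :=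
  2 * Real.pi / (2 * n + 1) * ∑ i ∈ Finset.range M, Real.sin (θ i (rows c i))

theorem hA_nonneg {M : ℕ} {θ : Strat n} (hθ : Adm θ) (c : Conf n M) : 0 ≤ hA θ c := by
  unfold hA
  refine mul_nonneg (by positivity) (Finset.sum_nonneg fun i _ => ?_)
  exact Real.sin_nonneg_of_mem_Icc (hθ _ _)

set_option maxHeartbeats 400000 in
/-- the multiplicative martingale -/
theorem EE_mart {t : (PowerSeries ℂ)[X]} {s κ : ℝ} {F : XX n → ℝ}
    (hF : ∀ θ ∈ Set.Icc 0 Real.pi, ∀ x,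
      W (pT n θ) (dX n s) (tX n) κ F x = Real.exp (lT t n s κ θ) * F x) {θ : Strat n}
    (hθ : Adm θ) (M : ℕ) :
    EE θ M (fun c => Real.exp (κ * (s * (dis c / (2 * n + 1)))
        - ∑ i ∈ Finset.range M, lT t n s κ (θ i (rows c i))) * F ⟨pat c, ⟨M, c, rfl⟩⟩)
      = F (oX n) := by
  induction M with
  | zero =>
    rw [EE_zero]
    beta_reduce
    rw [Finset.range_zero, Finset.sum_empty, sub_zero]
    show Real.exp (κ * (s * (((0 : ℤ) : ℝ) / (2 * n + 1)))) * F (oX n) = F (oX n)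
    simp
  | succ M ih =>
    rw [EE_succ, ← ih]
    congr 1
    funext c
    have h1 := hF (θ M c) (hθ M c) ⟨pat c, ⟨M, c, rfl⟩⟩
    have h2 : F ⟨pat c, ⟨M, c, rfl⟩⟩ = Real.exp (-lT t n s κ (θ M c))
        * W (pT n (θ M c)) (dX n s) (tX n) κ F ⟨pat c, ⟨M, c, rfl⟩⟩ := by
      rw [h1, ← mul_assoc, ← Real.exp_add, neg_add_cancel, Real.exp_zero, one_mul]
    refine Eq.trans ?_ (congrArg (fun y => Real.exp (κ * (s * (dis c / (2 * n + 1)))
      - ∑ i ∈ Finset.range M, lT t n s κ (θ i (rows c i))) * y) h2.symm)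
    beta_reduce
    unfold W
    rw [Finset.mul_sum, Finset.mul_sum]
    refine Finset.sum_congr rfl fun b _ => ?_
    obtain ⟨r1, r2⟩ := run_app c b
    have e0 : (⟨pat (app c b), ⟨M + 1, app c b, rfl⟩⟩ : XX n) = tX n b ⟨pat c, ⟨M, c, rfl⟩⟩ :=
      Subtype.ext r1
    have e3 : ∑ i ∈ Finset.range (M + 1), lT t n s κ (θ i (rows (app c b) i))
        = ∑ i ∈ Finset.range M, lT t n s κ (θ i (rows c i)) + lT t n s κ (θ M c) := by
      rw [Finset.sum_range_succ, rows_app c b le_rfl, rows_self]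
      refine congrArg₂ (· + ·) (Finset.sum_congr rfl fun i hi => ?_) rfl
      rw [rows_app c b (Finset.mem_range.1 hi).le]
    rw [e0, r2, e3]
    have e1 : rw1 n (prob (θ M c)) b = pT n (θ M c) b := rfl
    rw [e1, smul_eq_mul]
    unfold dX
    have e2 : Real.exp (κ * (s * ((dis c + (dTc (2 * n) b (pat c) : ℝ)) / (2 * n + 1)))
          - (∑ i ∈ Finset.range M, lT t n s κ (θ i (rows c i)) + lT t n s κ (θ M c)))
        = Real.exp (κ * (s * (dis c / (2 * n + 1)))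
            - ∑ i ∈ Finset.range M, lT t n s κ (θ i (rows c i)))
          * Real.exp (-lT t n s κ (θ M c))
          * Real.exp (κ * (s * ((dTc (2 * n) b (pat c) : ℝ) / (2 * n + 1)))) := by
      rw [← Real.exp_add, ← Real.exp_add]
      congr 1
      ring
    rw [e2]
    ring

/-- **the exponential moments in adaptive environments** -/
theorem grow_env : ∃ ρ C : ℝ, 0 < ρ ∧ ρ ≤ 1 ∧ 0 < C ∧ ∀ n : ℕ, 1 ≤ n → ∀ s : ℝ, |s| = 1 →
    ∀ σ : ℝ, 0 ≤ σ → σ ≤ ρ → ∃ a b : ℝ, 0 < a ∧ 0 < b ∧ ∀ θ : Strat n, Adm θ → ∀ M : ℕ,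
      a ≤ EE θ M (fun c => Real.exp (σ * (s * wA θ c) - (3 * σ ^ 2 - C / (2 * n + 1)) * hA θ c)) ∧
      EE θ M (fun c => Real.exp (σ * (s * wA θ c) - (3 * σ ^ 2 + C / (2 * n + 1)) * hA θ c)) ≤ b := by
  obtain ⟨r, K, hr, hr', hK, h1⟩ := log_cxa
  have hpi := Real.pi_pos
  have hpi3 := Real.pi_gt_three
  refine ⟨min (r / (2 * Real.pi)) 1, K * (r + r ^ 2), by positivity, min_le_right _ _,
    by positivity, fun n hn s hs σ hσ0 hσ => ?_⟩
  obtain ⟨t, w, μ, g, h, hb⟩ := eg_exists hn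
  have hs0 : s ≠ 0 := by
    rintro rfl
    simp at hs
  have hκr : 2 * Real.pi * σ ≤ r := by
    have h2 : σ ≤ r / (2 * Real.pi) := hσ.trans (min_le_left _ _)
    rw [le_div_iff₀ (by positivity)] at h2
    linarith
  have hκ0 : 0 ≤ 2 * Real.pi * σ := by positivity
  set κ := 2 * Real.pi * σ with hκ
  obtain ⟨F, hF, hW⟩ := com_pos h hb hn hs0 hκ0 (by rw [hs, one_mul]; linarith)
  obtain ⟨x0, -, hx0⟩ := Finset.exists_max_image Finset.univ F ⟨oX n, Finset.mem_univ _⟩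
  obtain ⟨x1, -, hx1⟩ := Finset.exists_min_image Finset.univ F ⟨oX n, Finset.mem_univ _⟩
  have hN0 : (0 : ℝ) < 2 * n + 1 := by positivity
  have hN1 : (1 : ℝ) ≤ 2 * n + 1 := by
    have : (0 : ℝ) ≤ n := Nat.cast_nonneg n
    linarith
  -- the logarithm of the eigenvalue
  have hlog : ∀ φ ∈ Set.Icc 0 Real.pi,
      |lT t n s κ φ - s * κ * Real.cos φ / (2 * n + 1)
        - 3 * Real.sin φ * κ ^ 2 / (2 * Real.pi * (2 * n + 1))|
        ≤ K * (r + r ^ 2) / (2 * n + 1) * (2 * Real.pi / (2 * n + 1) * Real.sin φ) := by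
    intro φ hφ
    have hsin : 0 ≤ Real.sin φ := Real.sin_nonneg_of_mem_Icc hφ
    set z : ℂ := -I * ((s * κ : ℝ) : ℂ) with hz
    have hzn : ‖z‖ = κ := by rw [hz, LX_norm, abs_mul, hs, one_mul, abs_of_nonneg hκ0]
    have hz2 : z ^ 2 = -((κ ^ 2 : ℝ) : ℂ) := by
      have hs2 : s ^ 2 = 1 := by rw [← sq_abs, hs, one_pow]
      rw [hz, mul_pow, neg_sq, Complex.I_sq, ← Complex.ofReal_pow, mul_pow, hs2, one_mul]
      ring
    have hz1 : I * z = ((s * κ : ℝ) : ℂ) := by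
      rw [hz]
      linear_combination (-((s * κ : ℝ) : ℂ)) * Complex.I_sq
    have h2 := h1 n hn t w μ g h hb z (by rw [hzn]; exact hκr) φ hφ
    rw [hzn, hz2, hz1] at h2
    have h6 := (Complex.abs_re_le_norm _).trans h2
    have e : (ev z (lgs (tz n t ((ph φ : ℂ) * I)))
          - ((Real.cos φ / (2 * n + 1) : ℝ) : ℂ) * ((s * κ : ℝ) : ℂ)
          + ((3 * Real.sin φ / (2 * Real.pi * (2 * n + 1)) : ℝ) : ℂ) * -((κ ^ 2 : ℝ) : ℂ)).re
        = lT t n s κ φ - s * κ * Real.cos φ / (2 * n + 1)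
          - 3 * Real.sin φ * κ ^ 2 / (2 * Real.pi * (2 * n + 1)) := by
      rw [← Complex.ofReal_neg, ← Complex.ofReal_mul, ← Complex.ofReal_mul, Complex.add_re,
        Complex.sub_re, Complex.ofReal_re, Complex.ofReal_re]
      unfold lT
      rw [← hz]
      ring
    rw [e] at h6
    refine h6.trans ?_
    set N : ℝ := 2 * n + 1 with hN
    have h4 : κ / N ^ 3 + κ ^ 2 / N ^ 2 ≤ (r + r ^ 2) / N ^ 2 := by
      have h5 : κ / N ^ 3 ≤ r / N ^ 2 := by
        apply div_le_div₀ hr.le hκr (by positivity)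
        exact pow_le_pow_right₀ hN1 (by norm_num)
      have h6 : κ ^ 2 / N ^ 2 ≤ r ^ 2 / N ^ 2 := by gcongr
      rw [add_div]
      linarith
    calc K * Real.sin φ * (κ / N ^ 3 + κ ^ 2 / N ^ 2)
        ≤ K * Real.sin φ * ((r + r ^ 2) / N ^ 2) := mul_le_mul_of_nonneg_left h4 (by positivity)
      _ = (K * (r + r ^ 2) / N * (1 / N * Real.sin φ)) * 1 := by field_simp
      _ ≤ (K * (r + r ^ 2) / N * (1 / N * Real.sin φ)) * (2 * Real.pi) := by
          apply mul_le_mul_of_nonneg_left _ (by positivity)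
          linarith
      _ = _ := by ring
  -- the sum
  have hsum : ∀ (θ : Strat n) (M : ℕ) (c : Conf n M), Adm θ →
      |∑ i ∈ Finset.range M, lT t n s κ (θ i (rows c i))
        - (κ * (s * (dis c / (2 * n + 1))) - σ * (s * wA θ c)) - 3 * σ ^ 2 * hA θ c|
        ≤ K * (r + r ^ 2) / (2 * n + 1) * hA θ c := by
    intro θ M c hθ
    have e : ∑ i ∈ Finset.range M, lT t n s κ (θ i (rows c i))
        - (κ * (s * (dis c / (2 * n + 1))) - σ * (s * wA θ c)) - 3 * σ ^ 2 * hA θ c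
        = ∑ i ∈ Finset.range M, (lT t n s κ (θ i (rows c i))
          - s * κ * Real.cos (θ i (rows c i)) / (2 * n + 1)
          - 3 * Real.sin (θ i (rows c i)) * κ ^ 2 / (2 * Real.pi * (2 * n + 1))) := by
      rw [Finset.sum_sub_distrib, Finset.sum_sub_distrib]
      unfold wA hA
      have e1 : ∑ i ∈ Finset.range M, s * κ * Real.cos (θ i (rows c i)) / (2 * n + 1)
          = s * κ / (2 * n + 1) * ∑ i ∈ Finset.range M, Real.cos (θ i (rows c i)) := by
        rw [Finset.mul_sum]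
        exact Finset.sum_congr rfl fun i _ => by ring
      have e2 : ∑ i ∈ Finset.range M, 3 * Real.sin (θ i (rows c i)) * κ ^ 2
            / (2 * Real.pi * (2 * n + 1))
          = 3 * κ ^ 2 / (2 * Real.pi * (2 * n + 1))
            * ∑ i ∈ Finset.range M, Real.sin (θ i (rows c i)) := by
        rw [Finset.mul_sum]
        exact Finset.sum_congr rfl fun i _ => by ring
      rw [e1, e2, hκ]
      field_simp
      ring
    rw [e]
    refine (Finset.abs_sum_le_sum_abs _ _).trans ?_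
    refine (Finset.sum_le_sum fun i _ => hlog _ (hθ _ _)).trans (le_of_eq ?_)
    unfold hA
    rw [Finset.mul_sum, Finset.mul_sum]
  refine ⟨(F x0)⁻¹ * F (oX n), (F x1)⁻¹ * F (oX n), mul_pos (inv_pos.2 (hF _)) (hF _),
    mul_pos (inv_pos.2 (hF _)) (hF _), fun θ hθ M => ?_⟩
  have hm := EE_mart hW hθ M
  constructor
  · rw [← hm, ← EE_mul]
    refine EE_mono hθ fun c => ?_
    obtain ⟨q1, q2⟩ := abs_le.1 (hsum θ M c hθ)
    have q3 : (F x0)⁻¹ * F ⟨pat c, ⟨M, c, rfl⟩⟩ ≤ 1 := by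
      rw [inv_mul_le_iff₀ (hF x0), mul_one]
      exact hx0 _ (Finset.mem_univ _)
    calc _ = Real.exp (κ * (s * (dis c / (2 * n + 1)))
        - ∑ i ∈ Finset.range M, lT t n s κ (θ i (rows c i)))
          * ((F x0)⁻¹ * F ⟨pat c, ⟨M, c, rfl⟩⟩) := by ring
      _ ≤ Real.exp (κ * (s * (dis c / (2 * n + 1)))
        - ∑ i ∈ Finset.range M, lT t n s κ (θ i (rows c i))) * 1 :=
          mul_le_mul_of_nonneg_left q3 (Real.exp_pos _).le
      _ ≤ _ := by
          rw [mul_one]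
          apply Real.exp_le_exp.2
          linarith
  · rw [← hm, ← EE_mul]
    refine EE_mono hθ fun c => ?_
    obtain ⟨q1, q2⟩ := abs_le.1 (hsum θ M c hθ)
    have q3 : 1 ≤ (F x1)⁻¹ * F ⟨pat c, ⟨M, c, rfl⟩⟩ := by
      rw [← div_eq_inv_mul, le_div_iff₀ (hF x1), one_mul]
      exact hx1 _ (Finset.mem_univ _)
    calc _ ≤ Real.exp (κ * (s * (dis c / (2 * n + 1)))
        - ∑ i ∈ Finset.range M, lT t n s κ (θ i (rows c i))) * 1 := by
          rw [mul_one]
          apply Real.exp_le_exp.2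
          linarith
      _ ≤ Real.exp (κ * (s * (dis c / (2 * n + 1)))
        - ∑ i ∈ Finset.range M, lT t n s κ (θ i (rows c i)))
          * ((F x1)⁻¹ * F ⟨pat c, ⟨M, c, rfl⟩⟩) :=
          mul_le_mul_of_nonneg_left q3 (Real.exp_pos _).le
      _ = _ := by ring

end H729I
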