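import Pool.Agent.Run7.h729.Ld.Gre

/-!
# Large deviations of the winding in adaptive environments
-/

set_option autoImplicit false

namespace H729I
open H906K Pool.Agent.H974R3 Polynomial Complex Filter Topology H729P

open Classical in
/-- the probability -/
noncomputable def PrE {n : ℕ} (θ : Strat n) (M : ℕ) (A : Conf n M → Prop) : ℝ :=
  EE θ M (fun c => if A c then 1 else 0)

theorem chern_env {n M : ℕ} {θ : Strat n} (hθ : Adm θ) (X : Conf n M → ℝ) {σ : ℝ} (hσ : 0 ≤ σ)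
    (y : ℝ) :
    Real.exp (σ * y) * PrE θ M (fun c => y ≤ X c) ≤ EE θ M (fun c => Real.exp (σ * X c)) := by
  classical
  unfold PrE
  rw [← EE_mul]
  refine EE_mono hθ fun c => ?_
  split_ifs with h
  · rw [mul_one]
    exact Real.exp_le_exp.2 (mul_le_mul_of_nonneg_left h hσ)
  · rw [mul_zero]
    exact (Real.exp_pos _).le

theorem tilt_env {n M : ℕ} {θ : Strat n} (hθ : Adm θ) (X : Conf n M → ℝ) {σ u : ℝ} (hσ : 0 ≤ σ)
    (hu : 0 ≤ u) (y₁ y₂ : ℝ) :
    EE θ M (fun c => Real.exp (σ * X c))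
      ≤ Real.exp (σ * y₂) * PrE θ M (fun c => y₁ ≤ X c)
        + Real.exp (-(u * y₂)) * EE θ M (fun c => Real.exp ((σ + u) * X c))
        + Real.exp (u * y₁) * EE θ M (fun c => Real.exp ((σ - u) * X c)) := by
  classical
  unfold PrE
  rw [← EE_mul, ← EE_mul, ← EE_mul, ← EE_add, ← EE_add]
  refine EE_mono hθ fun c => ?_
  rw [← Real.exp_add, ← Real.exp_add]
  have p1 := Real.exp_pos (-(u * y₂) + (σ + u) * X c)
  have p2 := Real.exp_pos (u * y₁ + (σ - u) * X c)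
  split_ifs with h
  · by_cases h2 : X c ≤ y₂
    · have h3 : Real.exp (σ * X c) ≤ Real.exp (σ * y₂) :=
        Real.exp_le_exp.2 (mul_le_mul_of_nonneg_left h2 hσ)
      linarith
    · push Not at h2
      have h3 : Real.exp (σ * X c) ≤ Real.exp (-(u * y₂) + (σ + u) * X c) := by
        apply Real.exp_le_exp.2
        nlinarith [mul_nonneg hu (sub_pos.2 h2).le]
      have p3 := Real.exp_pos (σ * y₂)
      linarith
  · push Not at h
    have h3 : Real.exp (σ * X c) ≤ Real.exp (u * y₁ + (σ - u) * X c) := by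
      apply Real.exp_le_exp.2
      nlinarith [mul_nonneg hu (sub_pos.2 h).le]
    linarith

theorem exp_ev (B : ℝ) {q : ℝ} (hq : 0 < q) : ∀ᶠ T : ℝ in atTop, B ≤ Real.exp (T * q) :=
  (Real.tendsto_exp_atTop.comp (tendsto_id.atTop_mul_const hq)).eventually_ge_atTop B

theorem up_env {n M : ℕ} {θ : Strat n} (hθ : Adm θ) (X : Conf n M → ℝ) {σ e b T D : ℝ}
    (he : 0 ≤ e) (hT : ∀ c : Conf n M, hA θ c ≤ T + D)
    (hb : EE θ M (fun c => Real.exp (σ * X c - e * hA θ c)) ≤ b) :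
    EE θ M (fun c => Real.exp (σ * X c)) ≤ b * Real.exp (e * D) * Real.exp (e * T) := by
  have h1 : EE θ M (fun c => Real.exp (σ * X c))
      ≤ EE θ M (fun c => Real.exp (e * (T + D)) * Real.exp (σ * X c - e * hA θ c)) := by
    refine EE_mono hθ fun c => ?_
    rw [← Real.exp_add]
    apply Real.exp_le_exp.2
    have := mul_le_mul_of_nonneg_left (hT c) he
    linarith
  rw [EE_mul] at h1
  calc _ ≤ _ := h1
    _ ≤ Real.exp (e * (T + D)) * b := mul_le_mul_of_nonneg_left hb (Real.exp_pos _).le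
    _ = _ := by
      rw [mul_add, Real.exp_add]
      ring

theorem lo_env {n M : ℕ} {θ : Strat n} (hθ : Adm θ) (X : Conf n M → ℝ) {σ e a T D : ℝ}
    (hT : ∀ c : Conf n M, T ≤ hA θ c ∧ hA θ c ≤ T + D)
    (ha : a ≤ EE θ M (fun c => Real.exp (σ * X c - e * hA θ c))) :
    a * Real.exp (-(|e| * D)) * Real.exp (e * T) ≤ EE θ M (fun c => Real.exp (σ * X c)) := by
  have h1 : EE θ M (fun c => Real.exp (σ * X c - e * hA θ c))
      ≤ EE θ M (fun c => Real.exp (|e| * D - e * T) * Real.exp (σ * X c)) := by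
    refine EE_mono hθ fun c => ?_
    rw [← Real.exp_add]
    apply Real.exp_le_exp.2
    obtain ⟨q1, q2⟩ := hT c
    have h2 : -(e * (hA θ c - T)) ≤ |e| * D := by
      calc -(e * (hA θ c - T)) ≤ |e * (hA θ c - T)| := neg_le_abs _
        _ = |e| * (hA θ c - T) := by rw [abs_mul, abs_of_nonneg (sub_nonneg.2 q1)]
        _ ≤ |e| * D := mul_le_mul_of_nonneg_left (by linarith) (abs_nonneg _)
    linarith
  rw [EE_mul] at h1
  have h2 := ha.trans h1
  have h3 : Real.exp (-(|e| * D)) * Real.exp (e * T) * Real.exp (|e| * D - e * T) = 1 := by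
    rw [← Real.exp_add, ← Real.exp_add, show -(|e| * D) + e * T + (|e| * D - e * T) = 0 by ring,
      Real.exp_zero]
  calc a * Real.exp (-(|e| * D)) * Real.exp (e * T)
      = (Real.exp (-(|e| * D)) * Real.exp (e * T)) * a := by ring
    _ ≤ (Real.exp (-(|e| * D)) * Real.exp (e * T))
        * (Real.exp (|e| * D - e * T) * EE θ M (fun c => Real.exp (σ * X c))) :=
        mul_le_mul_of_nonneg_left h2 (by positivity)
    _ = (Real.exp (-(|e| * D)) * Real.exp (e * T) * Real.exp (|e| * D - e * T))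
        * EE θ M (fun c => Real.exp (σ * X c)) := by ring
    _ = _ := by rw [h3, one_mul]

/-- **the large deviations of the winding** -/
theorem ldp_env : ∃ x₀ C : ℝ, 0 < x₀ ∧ ∃ n₀ : ℕ, 1 ≤ n₀ ∧ ∀ n : ℕ, n₀ ≤ n → ∀ s : ℝ, |s| = 1 →
    ∀ x : ℝ, 0 ≤ x → x ≤ x₀ → ∀ D : ℝ, ∃ T₀ : ℝ, ∀ T : ℝ, T₀ ≤ T → ∀ θ : Strat n, Adm θ →
      ∀ M : ℕ, (∀ c : Conf n M, T ≤ hA θ c ∧ hA θ c ≤ T + D) →
      Real.exp (-(x ^ 2 / 12 + C / √(2 * n + 1)) * T) ≤ PrE θ M (fun c => x * T ≤ s * wA θ c) ∧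
      PrE θ M (fun c => x * T ≤ s * wA θ c) ≤ Real.exp (-(x ^ 2 / 12 - C / √(2 * n + 1)) * T) := by
  obtain ⟨ρ, C₁, hρ, hρ1, hC₁, h1⟩ := grow_env
  refine ⟨ρ, √(48 * C₁) + C₁ + 1, hρ, max 1 ⌈48 * C₁ / ρ ^ 2⌉₊, le_max_left _ _, ?_⟩
  intro n hn s hs x hx0 hx D
  have hn1 : 1 ≤ n := (le_max_left _ _).trans hn
  have hn2 : 48 * C₁ / ρ ^ 2 ≤ n :=
    (Nat.le_ceil (48 * C₁ / ρ ^ 2)).trans (Nat.cast_le.2 ((le_max_right _ _).trans hn))
  have hN0 : (0 : ℝ) < 2 * n + 1 := by positivity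
  have hnn : (0 : ℝ) ≤ n := Nat.cast_nonneg n
  have hN1 : (1 : ℝ) ≤ 2 * n + 1 := by linarith
  have hNn : (n : ℝ) ≤ 2 * n + 1 := by linarith
  set N : ℝ := 2 * n + 1 with hN
  set R := √N with hR
  have hR1 : 1 ≤ R := by rw [hR]; exact Real.one_le_sqrt.2 hN1
  have hR0 : 0 < R := by linarith
  have hRR : R * R = N := Real.mul_self_sqrt hN0.le
  set S := √(48 * C₁) with hS
  have hS0 : 0 ≤ S := Real.sqrt_nonneg _
  have hSS : S * S = 48 * C₁ := Real.mul_self_sqrt (by positivity)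
  have hSpos : 0 < S := Real.sqrt_pos.2 (by positivity)
  set δ := S / R with hδ
  have hδ0 : 0 < δ := by positivity
  have hδ2 : δ ^ 2 = 48 * (C₁ / N) := by
    rw [hδ, div_pow, ← hRR, pow_two, pow_two, hSS]
    ring
  have hδρ : δ ≤ ρ := by
    apply le_of_sq_le_sq _ hρ.le
    rw [hδ2]
    rw [div_le_iff₀ (by positivity)] at hn2
    have h5 : 48 * C₁ ≤ N * ρ ^ 2 := hn2.trans (mul_le_mul_of_nonneg_right hNn (by positivity))
    rw [← mul_div_assoc, div_le_iff₀ hN0]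
    linarith
  set ε := C₁ / N with hε
  have hε0 : 0 < ε := by positivity
  have hεR : ε ≤ C₁ / R := by
    rw [hε]
    apply div_le_div_of_nonneg_left hC₁.le hR0
    rw [← hRR]
    nlinarith
  -- the parameters
  have hx1 : x ≤ 1 := hx.trans hρ1
  have hδ1 : δ ≤ 1 := hδρ.trans hρ1
  obtain ⟨a, b, ha, hb, hg⟩ := h1 n hn1 s hs (x / 6) (by positivity) (by linarith)
  obtain ⟨a0, b0, ha0, hb0, hg0⟩ := h1 n hn1 s hs ((x + δ) / 6) (by positivity)
    (by linarith)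
  obtain ⟨a1, b1, ha1, hb1, hg1⟩ := h1 n hn1 s hs ((x + 2 * δ) / 6) (by positivity)
    (by linarith)
  rw [← hN, ← hε] at hg hg0 hg1
  obtain ⟨b', hb'⟩ : ∃ b', b' = b * Real.exp ((3 * (x / 6) ^ 2 + ε) * D) := ⟨_, rfl⟩
  obtain ⟨b1', hb1'⟩ : ∃ b', b' = b1 * Real.exp ((3 * ((x + 2 * δ) / 6) ^ 2 + ε) * D) := ⟨_, rfl⟩
  obtain ⟨a0', ha0'⟩ : ∃ a', a' = a0 * Real.exp (-(|3 * ((x + δ) / 6) ^ 2 - ε| * D)) := ⟨_, rfl⟩
  have hb'0 : 0 < b' := by rw [hb']; positivity
  have hb1'0 : 0 < b1' := by rw [hb1']; positivity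
  have ha0'0 : 0 < a0' := by rw [ha0']; positivity
  have hR' : 0 < 1 / R := by positivity
  have hev := (((exp_ev b' hR').and (exp_ev (2 / a0') hR')).and
    (exp_ev (2 * (b1' + b') / a0') (q := δ ^ 2 / 24) (by positivity))).and
      (eventually_ge_atTop (0 : ℝ))
  obtain ⟨T₀, hT₀⟩ := eventually_atTop.1 hev
  refine ⟨T₀, fun T hTT θ hθ M hht => ?_⟩
  obtain ⟨⟨⟨f1, f2⟩, f3⟩, hT0⟩ := hT₀ T hTT
  set P := PrE θ M (fun c => x * T ≤ s * wA θ c) with hP
  have h5 := up_env hθ (fun c => s * wA θ c) (σ := x / 6) (e := 3 * (x / 6) ^ 2 + ε)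
    (by positivity) (fun c => (hht c).2) (hg θ hθ M).2
  have h4 := up_env hθ (fun c => s * wA θ c) (σ := (x + 2 * δ) / 6)
    (e := 3 * ((x + 2 * δ) / 6) ^ 2 + ε) (by positivity) (fun c => (hht c).2) (hg1 θ hθ M).2
  have h3 := lo_env hθ (fun c => s * wA θ c) (σ := (x + δ) / 6)
    (e := 3 * ((x + δ) / 6) ^ 2 - ε) hht (hg0 θ hθ M).1
  rw [← hb'] at h5
  rw [← hb1'] at h4
  rw [← ha0'] at h3
  constructor
  · -- the lower bound
    have h2 := tilt_env (M := M) hθ (fun c => s * wA θ c) (σ := (x + δ) / 6) (u := δ / 6)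
      (by positivity) (by positivity) (x * T) ((x + 2 * δ) * T)
    rw [← hP, show (x + δ) / 6 + δ / 6 = (x + 2 * δ) / 6 by ring,
      show (x + δ) / 6 - δ / 6 = x / 6 by ring] at h2
    set Z := Real.exp ((3 * ((x + δ) / 6) ^ 2 - ε) * T) with hZ
    have hZ0 : 0 < Z := Real.exp_pos _
    have g4 : 2 * ε - δ ^ 2 / 24 = 0 := by rw [hδ2]; ring
    have g1 : Real.exp (-(δ / 6 * ((x + 2 * δ) * T)))
        * EE θ M (fun c => Real.exp ((x + 2 * δ) / 6 * (s * wA θ c)))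
        ≤ b1' * (Z * Real.exp (-(T * (δ ^ 2 / 24)))) := by
      calc _ ≤ Real.exp (-(δ / 6 * ((x + 2 * δ) * T)))
            * (b1' * Real.exp ((3 * ((x + 2 * δ) / 6) ^ 2 + ε) * T)) :=
            mul_le_mul_of_nonneg_left h4 (Real.exp_pos _).le
        _ = b1' * Real.exp (-(δ / 6 * ((x + 2 * δ) * T)) + (3 * ((x + 2 * δ) / 6) ^ 2 + ε) * T) := by
            rw [Real.exp_add]
            ring
        _ = b1' * Real.exp ((3 * ((x + δ) / 6) ^ 2 - ε) * T + -(T * (δ ^ 2 / 24))) := by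
            have g3 : -(δ / 6 * ((x + 2 * δ) * T)) + (3 * ((x + 2 * δ) / 6) ^ 2 + ε) * T
                = (3 * ((x + δ) / 6) ^ 2 - ε) * T + -(T * (δ ^ 2 / 24))
                  + T * (2 * ε - δ ^ 2 / 24) := by ring
            rw [g3, g4, mul_zero, add_zero]
        _ = _ := by rw [Real.exp_add]
    have g5 : Real.exp (δ / 6 * (x * T))
        * EE θ M (fun c => Real.exp (x / 6 * (s * wA θ c)))
        ≤ b' * (Z * Real.exp (-(T * (δ ^ 2 / 24)))) := by
      calc _ ≤ Real.exp (δ / 6 * (x * T)) * (b' * Real.exp ((3 * (x / 6) ^ 2 + ε) * T)) :=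
            mul_le_mul_of_nonneg_left h5 (Real.exp_pos _).le
        _ = b' * Real.exp (δ / 6 * (x * T) + (3 * (x / 6) ^ 2 + ε) * T) := by
            rw [Real.exp_add]
            ring
        _ = b' * Real.exp ((3 * ((x + δ) / 6) ^ 2 - ε) * T + -(T * (δ ^ 2 / 24))) := by
            have g3 : δ / 6 * (x * T) + (3 * (x / 6) ^ 2 + ε) * T
                = (3 * ((x + δ) / 6) ^ 2 - ε) * T + -(T * (δ ^ 2 / 24))
                  + T * (2 * ε - δ ^ 2 / 24) := by ring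
            rw [g3, g4, mul_zero, add_zero]
        _ = _ := by rw [Real.exp_add]
    have g6 : (b1' + b') * (Z * Real.exp (-(T * (δ ^ 2 / 24)))) ≤ a0' / 2 * Z := by
      have g7 : (b1' + b') * Real.exp (-(T * (δ ^ 2 / 24))) ≤ a0' / 2 := by
        rw [Real.exp_neg, ← div_eq_mul_inv, div_le_iff₀ (Real.exp_pos _)]
        rw [div_le_iff₀ ha0'0] at f3
        linarith
      calc _ = ((b1' + b') * Real.exp (-(T * (δ ^ 2 / 24)))) * Z := by ring
        _ ≤ _ := mul_le_mul_of_nonneg_right g7 hZ0.le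
    have g8 : a0' / 2 * Z ≤ Real.exp ((x + δ) / 6 * ((x + 2 * δ) * T)) * P := by
      have : (b1' + b') * (Z * Real.exp (-(T * (δ ^ 2 / 24))))
        = b1' * (Z * Real.exp (-(T * (δ ^ 2 / 24)))) + b' * (Z * Real.exp (-(T * (δ ^ 2 / 24)))) := by
        ring
      linarith
    have g9 : Real.exp (-(T * (1 / R))) ≤ a0' / 2 := by
      rw [Real.exp_neg, inv_le_comm₀ (Real.exp_pos _) (by positivity)]
      rwa [inv_div]
    have g10 : Real.exp (-(T * (1 / R))) * Z ≤ Real.exp ((x + δ) / 6 * ((x + 2 * δ) * T)) * P :=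
      (mul_le_mul_of_nonneg_right g9 hZ0.le).trans g8
    have g11 : Real.exp (-(T * (1 / R)) + (3 * ((x + δ) / 6) ^ 2 - ε) * T
        - (x + δ) / 6 * ((x + 2 * δ) * T)) ≤ P := by
      rw [Real.exp_sub, Real.exp_add, div_le_iff₀ (Real.exp_pos _)]
      linarith
    refine le_trans (Real.exp_le_exp.2 ?_) g11
    have g12 : -(T * (1 / R)) + (3 * ((x + δ) / 6) ^ 2 - ε) * T - (x + δ) / 6 * ((x + 2 * δ) * T)
        = -(x ^ 2 / 12 + (1 / R + ε + (4 * x * δ + 3 * δ ^ 2) / 12)) * T := by ring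
    rw [g12]
    have g13 : 1 / R + ε + (4 * x * δ + 3 * δ ^ 2) / 12 ≤ (S + C₁ + 1) / R := by
      have g14 : (4 * x * δ + 3 * δ ^ 2) / 12 ≤ δ := by nlinarith
      have g15 : (S + C₁ + 1) / R = δ + C₁ / R + 1 / R := by rw [hδ]; ring
      rw [g15]
      linarith
    have := mul_le_mul_of_nonneg_right g13 hT0
    linarith
  · -- the upper bound
    have h2 := chern_env (M := M) hθ (fun c => s * wA θ c) (σ := x / 6) (by positivity) (x * T)
    rw [← hP] at h2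
    have g1 : Real.exp (x / 6 * (x * T)) * P
        ≤ Real.exp (T * (1 / R)) * Real.exp ((3 * (x / 6) ^ 2 + ε) * T) :=
      h2.trans (h5.trans (mul_le_mul_of_nonneg_right f1 (Real.exp_pos _).le))
    have g2 : P ≤ Real.exp (T * (1 / R) + (3 * (x / 6) ^ 2 + ε) * T - x / 6 * (x * T)) := by
      rw [Real.exp_sub, Real.exp_add, le_div_iff₀ (Real.exp_pos _)]
      linarith
    refine g2.trans (Real.exp_le_exp.2 ?_)
    have g4 : T * (1 / R) + (3 * (x / 6) ^ 2 + ε) * T - x / 6 * (x * T)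
        = -(x ^ 2 / 12 - (1 / R + ε)) * T := by ring
    have g5 : 1 / R + ε ≤ (S + C₁ + 1) / R := by
      have g15 : (S + C₁ + 1) / R = δ + C₁ / R + 1 / R := by rw [hδ]; ring
      rw [g15]
      linarith
    have := mul_le_mul_of_nonneg_right g5 hT0
    linarith

end H729I
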