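import Pool.Agent.Run7.h729.Ld.Lds

/-!
# Large deviations of several increments of the winding
-/

set_option autoImplicit false

namespace H729I
open H906K Pool.Agent.H974R3 Polynomial Complex Filter Topology H729P

variable {n : ℕ}

open Classical in
theorem PrE_step {θ : Strat n} {τ : ℕ → ℕ} (hτ : Monotone τ)
    (E : (M : ℕ) → ℕ → Conf n M → Prop)
    (hE : ∀ (M i : ℕ) (c : Conf n M) (L : ℕ), τ (i + 1) ≤ L → (E L i (rows c L) ↔ E M i c)) (r : ℕ) :
    PrE θ (τ (r + 1)) (fun c => ∀ i, i < r + 1 → E _ i c)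
      = EE θ (τ (r + 1)) (fun c => (fun c' : Conf n (τ r) =>
          if ∀ i, i < r → E _ i c' then (1 : ℝ) else 0) (rows c (τ r)) * if E _ r c then 1 else 0) := by
  unfold PrE
  refine congrArg (EE θ (τ (r + 1))) ?_
  funext c
  have h1 : (∀ i, i < r → E _ i (rows c (τ r))) ↔ ∀ i, i < r → E _ i c := by
    refine forall_congr' fun i => forall_congr' fun hi => ?_
    exact hE _ i c (τ r) (hτ (by omega))
  beta_reduce
  by_cases h2 : ∀ i, i < r → E _ i c
  · rw [if_pos (h1.2 h2), one_mul]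
    by_cases h3 : E _ r c
    · rw [if_pos h3, if_pos]
      intro i hi
      rcases Nat.lt_succ_iff_lt_or_eq.1 hi with h4 | rfl
      · exact h2 i h4
      · exact h3
    · rw [if_neg h3, if_neg]
      exact fun h => h3 (h r (Nat.lt_succ_self r))
  · rw [if_neg (fun h => h2 (h1.1 h)), zero_mul, if_neg]
    exact fun h => h2 fun i hi => h i (Nat.lt_succ_of_lt hi)

open Classical in
theorem multi_lo {θ : Strat n} {τ : ℕ → ℕ} (hτ : Monotone τ)
    (E : (M : ℕ) → ℕ → Conf n M → Prop)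
    (hE : ∀ (M i : ℕ) (c : Conf n M) (L : ℕ), τ (i + 1) ≤ L → (E L i (rows c L) ↔ E M i c))
    {α : ℕ → ℝ} (r : ℕ) (hs : ∀ i, i < r → ∀ g : Conf n (τ i) → ℝ, (∀ c, 0 ≤ g c) →
      Real.exp (-α i) * EE θ (τ i) g
        ≤ EE θ (τ (i + 1)) (fun c => g (rows c (τ i)) * if E _ i c then 1 else 0)) :
    Real.exp (-∑ i ∈ Finset.range r, α i) ≤ PrE θ (τ r) (fun c => ∀ i, i < r → E _ i c) := by
  induction r with
  | zero =>
    unfold PrE
    have : (fun c : Conf n (τ 0) => if ∀ i, i < 0 → E _ i c then (1 : ℝ) else 0) = fun _ => 1 := by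
      funext c
      rw [if_pos]
      intro i hi
      omega
    rw [this, EE_const, Finset.range_zero, Finset.sum_empty, neg_zero, Real.exp_zero]
  | succ r ih =>
    rw [PrE_step hτ E hE r, Finset.sum_range_succ, neg_add, Real.exp_add, mul_comm]
    refine le_trans ?_ (hs r (Nat.lt_succ_self r) (fun c' : Conf n (τ r) =>
      if ∀ i, i < r → E _ i c' then (1 : ℝ) else 0) (fun c => ?_))
    · refine mul_le_mul_of_nonneg_left ?_ (Real.exp_pos _).le
      have h7 := ih fun i hi => hs i (Nat.lt_succ_of_lt hi)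
      unfold PrE at h7
      refine h7.trans (le_of_eq (congrArg (EE θ (τ r)) ?_))
      funext c
      by_cases hp : ∀ i, i < r → E _ i c
      · rw [if_pos hp, if_pos hp]
      · rw [if_neg hp, if_neg hp]
    · split_ifs
      · exact zero_le_one
      · exact le_rfl

open Classical in
theorem multi_up {θ : Strat n} {τ : ℕ → ℕ} (hτ : Monotone τ)
    (E : (M : ℕ) → ℕ → Conf n M → Prop)
    (hE : ∀ (M i : ℕ) (c : Conf n M) (L : ℕ), τ (i + 1) ≤ L → (E L i (rows c L) ↔ E M i c))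
    {α : ℕ → ℝ} (r : ℕ) (hs : ∀ i, i < r → ∀ g : Conf n (τ i) → ℝ, (∀ c, 0 ≤ g c) →
      EE θ (τ (i + 1)) (fun c => g (rows c (τ i)) * if E _ i c then 1 else 0)
        ≤ Real.exp (-α i) * EE θ (τ i) g) :
    PrE θ (τ r) (fun c => ∀ i, i < r → E _ i c) ≤ Real.exp (-∑ i ∈ Finset.range r, α i) := by
  induction r with
  | zero =>
    unfold PrE
    have : (fun c : Conf n (τ 0) => if ∀ i, i < 0 → E _ i c then (1 : ℝ) else 0) = fun _ => 1 := by
      funext c
      rw [if_pos]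
      intro i hi
      omega
    rw [this, EE_const, Finset.range_zero, Finset.sum_empty, neg_zero, Real.exp_zero]
  | succ r ih =>
    rw [PrE_step hτ E hE r, Finset.sum_range_succ, neg_add, Real.exp_add, mul_comm (Real.exp _)]
    refine le_trans (hs r (Nat.lt_succ_self r) (fun c' : Conf n (τ r) =>
      if ∀ i, i < r → E _ i c' then (1 : ℝ) else 0) (fun c => ?_)) ?_
    · split_ifs
      · exact zero_le_one
      · exact le_rfl
    · refine mul_le_mul_of_nonneg_left ?_ (Real.exp_pos _).le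
      have h7 := ih fun i hi => hs i (Nat.lt_succ_of_lt hi)
      unfold PrE at h7
      refine (le_of_eq (congrArg (EE θ (τ r)) ?_)).trans h7
      funext c
      by_cases hp : ∀ i, i < r → E _ i c
      · rw [if_pos hp, if_pos hp]
      · rw [if_neg hp, if_neg hp]

open Classical in
/-- **the large deviations of the path of the winding** -/
theorem ldp_multi : ∃ x₀ C : ℝ, 0 < x₀ ∧ ∃ n₀ : ℕ, 1 ≤ n₀ ∧ ∀ n : ℕ, n₀ ≤ n → ∀ D : ℝ, ∃ T₀ : ℝ,
    ∀ θ : Strat n, Adm θ → ∀ τ : ℕ → ℕ, Monotone τ → ∀ (s x T : ℕ → ℝ) (r : ℕ),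
      (∀ i, i < r → |s i| = 1 ∧ 0 ≤ x i ∧ x i ≤ x₀ ∧ T₀ ≤ T i ∧ ∀ c : Conf n (τ (i + 1)),
        T i ≤ hI θ (τ i) (τ (i + 1)) c ∧ hI θ (τ i) (τ (i + 1)) c ≤ T i + D) →
      Real.exp (-∑ i ∈ Finset.range r, (x i ^ 2 / 12 + C / √(2 * n + 1)) * T i)
        ≤ PrE θ (τ r) (fun c => ∀ i, i < r → x i * T i ≤ s i * wI θ (τ i) (τ (i + 1)) c ∧
          s i * wI θ (τ i) (τ (i + 1)) c ≤ (x i + C / √(2 * n + 1)) * T i) ∧
      PrE θ (τ r) (fun c => ∀ i, i < r → x i * T i ≤ s i * wI θ (τ i) (τ (i + 1)) c)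
        ≤ Real.exp (-∑ i ∈ Finset.range r, (x i ^ 2 / 12 - C / √(2 * n + 1)) * T i) := by
  obtain ⟨x₀, C, hx₀, -, n₀, hn₀, h⟩ := ldp_seg
  refine ⟨x₀, C, hx₀, n₀, hn₀, fun n hn D => ?_⟩
  obtain ⟨T1, h1⟩ := h n hn 1 abs_one D
  obtain ⟨T2, h2⟩ := h n hn (-1) (by rw [abs_neg, abs_one]) D
  refine ⟨max T1 T2, fun θ hθ τ hτ s x T r hr => ?_⟩
  have h3 : ∀ i, i < r → ∀ g : Conf n (τ i) → ℝ, (∀ c, 0 ≤ g c) →
      Real.exp (-(x i ^ 2 / 12 + C / √(2 * n + 1)) * T i) * EE θ (τ i) g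
        ≤ EE θ (τ (i + 1)) (fun c => g (rows c (τ i)) * if x i * T i ≤ s i * wI θ (τ i) (τ (i + 1)) c ∧
            s i * wI θ (τ i) (τ (i + 1)) c ≤ (x i + C / √(2 * n + 1)) * T i then 1 else 0) ∧
      EE θ (τ (i + 1)) (fun c => g (rows c (τ i)) *
          if x i * T i ≤ s i * wI θ (τ i) (τ (i + 1)) c then 1 else 0)
        ≤ Real.exp (-(x i ^ 2 / 12 - C / √(2 * n + 1)) * T i) * EE θ (τ i) g := fun i hi g hg0 => by
    obtain ⟨q1, q2, q3, q4, q5⟩ := hr i hi
    rcases (abs_eq zero_le_one).1 q1 with h4 | h4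
    · have h5 := h1 (T i) ((le_max_left _ _).trans q4) (x i) q2 q3 θ hθ (τ i) (τ (i + 1))
        (hτ (Nat.le_succ i)) q5 g hg0
      rw [h4]
      exact h5
    · have h5 := h2 (T i) ((le_max_right _ _).trans q4) (x i) q2 q3 θ hθ (τ i) (τ (i + 1))
        (hτ (Nat.le_succ i)) q5 g hg0
      rw [h4]
      exact h5
  constructor
  · refine multi_lo hτ (fun M i c => x i * T i ≤ s i * wI θ (τ i) (τ (i + 1)) c ∧
      s i * wI θ (τ i) (τ (i + 1)) c ≤ (x i + C / √(2 * n + 1)) * T i) (fun M i c L hL => ?_)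
      (α := fun i => (x i ^ 2 / 12 + C / √(2 * n + 1)) * T i) r (fun i hi g hg0 => ?_)
    · rw [wI_rows θ (hτ (Nat.le_succ i)) hL c]
    · have h6 := (h3 i hi g hg0).1
      rw [← neg_mul]
      convert h6
  · refine multi_up hτ (fun M i c => x i * T i ≤ s i * wI θ (τ i) (τ (i + 1)) c)
      (fun M i c L hL => ?_) (α := fun i => (x i ^ 2 / 12 - C / √(2 * n + 1)) * T i) r
      (fun i hi g hg0 => ?_)
    · rw [wI_rows θ (hτ (Nat.le_succ i)) hL c]
    · have h6 := (h3 i hi g hg0).2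
      rw [← neg_mul]
      convert h6

end H729I
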