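import Pool.Agent.Run7.h729.Ld.Seg
import Pool.Agent.Run7.h729.Ld.Lde

/-!
# Large deviations of the increments of the winding
-/

set_option autoImplicit false

namespace H729I
open H906K Pool.Agent.H974R3 Polynomial Complex Filter Topology H729P

open Classical in
theorem chern_g {n M : ℕ} {θ : Strat n} (hθ : Adm θ) (G X : Conf n M → ℝ) (hG : ∀ c, 0 ≤ G c)
    {σ : ℝ} (hσ : 0 ≤ σ) (y : ℝ) :
    Real.exp (σ * y) * EE θ M (fun c => G c * if y ≤ X c then 1 else 0)
      ≤ EE θ M (fun c => G c * Real.exp (σ * X c)) := by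
  rw [← EE_mul]
  refine EE_mono hθ fun c => ?_
  have hg := hG c
  have p1 := Real.exp_pos (σ * X c)
  split_ifs with h
  · have h1 : Real.exp (σ * y) ≤ Real.exp (σ * X c) :=
      Real.exp_le_exp.2 (mul_le_mul_of_nonneg_left h hσ)
    have h2 := mul_le_mul_of_nonneg_left h1 hg
    linarith
  · rw [mul_zero, mul_zero]
    positivity

open Classical in
theorem tilt_g {n M : ℕ} {θ : Strat n} (hθ : Adm θ) (G X : Conf n M → ℝ) (hG : ∀ c, 0 ≤ G c)
    {σ u : ℝ} (hσ : 0 ≤ σ) (hu : 0 ≤ u) (y₁ y₂ : ℝ) :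
    EE θ M (fun c => G c * Real.exp (σ * X c))
      ≤ Real.exp (σ * y₂) * EE θ M (fun c => G c * if y₁ ≤ X c ∧ X c ≤ y₂ then 1 else 0)
        + Real.exp (-(u * y₂)) * EE θ M (fun c => G c * Real.exp ((σ + u) * X c))
        + Real.exp (u * y₁) * EE θ M (fun c => G c * Real.exp ((σ - u) * X c)) := by
  rw [← EE_mul, ← EE_mul, ← EE_mul, ← EE_add, ← EE_add]
  refine EE_mono hθ fun c => ?_
  have hg := hG c
  have key : Real.exp (σ * X c) ≤ Real.exp (σ * y₂) * (if y₁ ≤ X c ∧ X c ≤ y₂ then 1 else 0)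
      + Real.exp (-(u * y₂)) * Real.exp ((σ + u) * X c)
      + Real.exp (u * y₁) * Real.exp ((σ - u) * X c) := by
    rw [← Real.exp_add, ← Real.exp_add]
    have p1 := Real.exp_pos (-(u * y₂) + (σ + u) * X c)
    have p2 := Real.exp_pos (u * y₁ + (σ - u) * X c)
    have p3 := Real.exp_pos (σ * y₂)
    by_cases h1 : y₁ ≤ X c
    · by_cases h2 : X c ≤ y₂
      · rw [if_pos ⟨h1, h2⟩]
        have h3 : Real.exp (σ * X c) ≤ Real.exp (σ * y₂) :=
          Real.exp_le_exp.2 (mul_le_mul_of_nonneg_left h2 hσ)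
        linarith
      · rw [if_neg fun h => h2 h.2]
        push Not at h2
        have h3 : Real.exp (σ * X c) ≤ Real.exp (-(u * y₂) + (σ + u) * X c) := by
          apply Real.exp_le_exp.2
          nlinarith [mul_nonneg hu (sub_pos.2 h2).le]
        linarith
    · rw [if_neg fun h => h1 h.1]
      push Not at h1
      have h3 : Real.exp (σ * X c) ≤ Real.exp (u * y₁ + (σ - u) * X c) := by
        apply Real.exp_le_exp.2
        nlinarith [mul_nonneg hu (sub_pos.2 h1).le]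
      linarith
  have := mul_le_mul_of_nonneg_left key hg
  calc _ ≤ _ := this
    _ = _ := by ring

theorem up_g {n M : ℕ} {θ : Strat n} (hθ : Adm θ) (G X H : Conf n M → ℝ) (hG : ∀ c, 0 ≤ G c)
    {σ e b T D : ℝ} (he : 0 ≤ e) (hT : ∀ c : Conf n M, H c ≤ T + D)
    (hb : EE θ M (fun c => G c * Real.exp (σ * X c - e * H c)) ≤ b) :
    EE θ M (fun c => G c * Real.exp (σ * X c)) ≤ b * Real.exp (e * D) * Real.exp (e * T) := by
  have h1 : EE θ M (fun c => G c * Real.exp (σ * X c))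
      ≤ EE θ M (fun c => Real.exp (e * (T + D)) * (G c * Real.exp (σ * X c - e * H c))) := by
    refine EE_mono hθ fun c => ?_
    have h2 : Real.exp (σ * X c) ≤ Real.exp (e * (T + D)) * Real.exp (σ * X c - e * H c) := by
      rw [← Real.exp_add]
      apply Real.exp_le_exp.2
      have := mul_le_mul_of_nonneg_left (hT c) he
      linarith
    calc _ ≤ G c * (Real.exp (e * (T + D)) * Real.exp (σ * X c - e * H c)) :=
          mul_le_mul_of_nonneg_left h2 (hG c)
      _ = _ := by ring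
  rw [EE_mul] at h1
  calc _ ≤ _ := h1
    _ ≤ Real.exp (e * (T + D)) * b := mul_le_mul_of_nonneg_left hb (Real.exp_pos _).le
    _ = _ := by
      rw [mul_add, Real.exp_add]
      ring

theorem lo_g {n M : ℕ} {θ : Strat n} (hθ : Adm θ) (G X H : Conf n M → ℝ) (hG : ∀ c, 0 ≤ G c)
    {σ e a T D : ℝ} (hT : ∀ c : Conf n M, T ≤ H c ∧ H c ≤ T + D)
    (ha : a ≤ EE θ M (fun c => G c * Real.exp (σ * X c - e * H c))) :
    a * Real.exp (-(|e| * D)) * Real.exp (e * T) ≤ EE θ M (fun c => G c * Real.exp (σ * X c)) := by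
  have h1 : EE θ M (fun c => G c * Real.exp (σ * X c - e * H c))
      ≤ EE θ M (fun c => Real.exp (|e| * D - e * T) * (G c * Real.exp (σ * X c))) := by
    refine EE_mono hθ fun c => ?_
    have h3 : Real.exp (σ * X c - e * H c) ≤ Real.exp (|e| * D - e * T) * Real.exp (σ * X c) := by
      rw [← Real.exp_add]
      apply Real.exp_le_exp.2
      obtain ⟨q1, q2⟩ := hT c
      have h2 : -(e * (H c - T)) ≤ |e| * D := by
        calc -(e * (H c - T)) ≤ |e * (H c - T)| := neg_le_abs _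
          _ = |e| * (H c - T) := by rw [abs_mul, abs_of_nonneg (sub_nonneg.2 q1)]
          _ ≤ |e| * D := mul_le_mul_of_nonneg_left (by linarith) (abs_nonneg _)
      linarith
    calc _ ≤ G c * (Real.exp (|e| * D - e * T) * Real.exp (σ * X c)) :=
          mul_le_mul_of_nonneg_left h3 (hG c)
      _ = _ := by ring
  rw [EE_mul] at h1
  have h2 := ha.trans h1
  have h3 : Real.exp (-(|e| * D)) * Real.exp (e * T) * Real.exp (|e| * D - e * T) = 1 := by
    rw [← Real.exp_add, ← Real.exp_add, show -(|e| * D) + e * T + (|e| * D - e * T) = 0 by ring,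
      Real.exp_zero]
  calc a * Real.exp (-(|e| * D)) * Real.exp (e * T)
      = (Real.exp (-(|e| * D)) * Real.exp (e * T)) * a := by ring
    _ ≤ (Real.exp (-(|e| * D)) * Real.exp (e * T))
        * (Real.exp (|e| * D - e * T) * EE θ M (fun c => G c * Real.exp (σ * X c))) :=
        mul_le_mul_of_nonneg_left h2 (by positivity)
    _ = (Real.exp (-(|e| * D)) * Real.exp (e * T) * Real.exp (|e| * D - e * T))
        * EE θ M (fun c => G c * Real.exp (σ * X c)) := by ring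
    _ = _ := by rw [h3, one_mul]

/-- the winding in the rows `A ≤ t < B` -/
noncomputable def wI {n M : ℕ} (θ : Strat n) (A B : ℕ) (c : Conf n M) : ℝ :=
  2 * Real.pi / (2 * n + 1) * (dis (rows c B) - dis (rows c A)
    - ∑ i ∈ Finset.Ico A B, Real.cos (θ i (rows c i)))

/-- the height of the rows `A ≤ t < B` -/
noncomputable def hI {n M : ℕ} (θ : Strat n) (A B : ℕ) (c : Conf n M) : ℝ :=
  2 * Real.pi / (2 * n + 1) * ∑ i ∈ Finset.Ico A B, Real.sin (θ i (rows c i))

theorem wI_rows {n M L : ℕ} (θ : Strat n) {A B : ℕ} (hAB : A ≤ B) (hB : B ≤ L) (c : Conf n M) :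
    wI θ A B (rows c L) = wI θ A B c := by
  unfold wI
  rw [rows_rows c hB, rows_rows c (hAB.trans hB)]
  congr 2
  refine Finset.sum_congr rfl fun i hi => ?_
  rw [rows_rows c ((Finset.mem_Ico.1 hi).2.le.trans hB)]

theorem wI_wS {n K m : ℕ} (θ : Strat n) (c : Conf n (K + m)) : wI θ K (K + m) c = wS θ c := by
  unfold wI wS
  rw [rows_self]

open Classical in
/-- **the large deviations of one increment** -/
theorem ldp_seg : ∃ x₀ C : ℝ, 0 < x₀ ∧ 0 < C ∧ ∃ n₀ : ℕ, 1 ≤ n₀ ∧ ∀ n : ℕ, n₀ ≤ n → ∀ s : ℝ,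
    |s| = 1 → ∀ D : ℝ, ∃ T₀ : ℝ, ∀ T : ℝ, T₀ ≤ T → ∀ x : ℝ, 0 ≤ x → x ≤ x₀ → ∀ θ : Strat n, Adm θ →
      ∀ A B : ℕ, A ≤ B → (∀ c : Conf n B, T ≤ hI θ A B c ∧ hI θ A B c ≤ T + D) →
      ∀ g : Conf n A → ℝ, (∀ c, 0 ≤ g c) →
      Real.exp (-(x ^ 2 / 12 + C / √(2 * n + 1)) * T) * EE θ A g
        ≤ EE θ B (fun c => g (rows c A) * if x * T ≤ s * wI θ A B c ∧
            s * wI θ A B c ≤ (x + C / √(2 * n + 1)) * T then 1 else 0) ∧
      EE θ B (fun c => g (rows c A) * if x * T ≤ s * wI θ A B c then 1 else 0)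
        ≤ Real.exp (-(x ^ 2 / 12 - C / √(2 * n + 1)) * T) * EE θ A g := by
  obtain ⟨ρ, C₁, hρ, hρ1, hC₁, h1⟩ := grow_seg
  refine ⟨ρ, 2 * √(48 * C₁) + C₁ + 1, hρ, by positivity, max 1 ⌈48 * C₁ / ρ ^ 2⌉₊,
    le_max_left _ _, ?_⟩
  intro n hn s hs D
  have hn1 : 1 ≤ n := (le_max_left _ _).trans hn
  have hn2 : 48 * C₁ / ρ ^ 2 ≤ n :=
    (Nat.le_ceil (48 * C₁ / ρ ^ 2)).trans (Nat.cast_le.2 ((le_max_right _ _).trans hn))
  have hN0 : (0 : ℝ) < 2 * n + 1 := by positivity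
  have hnn : (0 : ℝ) ≤ n := Nat.cast_nonneg n
  have hN1 : (1 : ℝ) ≤ 2 * n + 1 := by linarith
  have hNn : (n : ℝ) ≤ 2 * n + 1 := by linarith
  obtain ⟨a, b, ha, hb, hg⟩ := h1 n hn1 s hs
  set N : ℝ := 2 * n + 1 with hN
  set R := √N with hR
  have hR1 : 1 ≤ R := by rw [hR]; exact Real.one_le_sqrt.2 hN1
  have hR0 : 0 < R := by linarith
  have hRR : R * R = N := Real.mul_self_sqrt hN0.le
  set S := √(48 * C₁) with hSd
  have hS0 : 0 ≤ S := Real.sqrt_nonneg _
  have hSS : S * S = 48 * C₁ := Real.mul_self_sqrt (by positivity)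
  have hSpos : 0 < S := Real.sqrt_pos.2 (by positivity)
  set δ := S / R with hδ
  have hδ0 : 0 < δ := by positivity
  have hδ2 : δ ^ 2 = 48 * (C₁ / N) := by
    rw [hδ, div_pow, ← hRR, pow_two, pow_two, hSS]
    ring
  have hδρ : δ ≤ ρ := by
    apply le_of_sq_le_sq _ hρ.le
    rw [hδ2]
    rw [div_le_iff₀ (by positivity)] at hn2
    have h5 : 48 * C₁ ≤ N * ρ ^ 2 := hn2.trans (mul_le_mul_of_nonneg_right hNn (by positivity))
    rw [← mul_div_assoc, div_le_iff₀ hN0]
    linarith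
  set ε := C₁ / N with hε
  have hε0 : 0 < ε := by positivity
  have hεR : ε ≤ C₁ / R := by
    rw [hε]
    apply div_le_div_of_nonneg_left hC₁.le hR0
    rw [← hRR]
    exact le_mul_of_one_le_left hR0.le hR1
  have hδ1 : δ ≤ 1 := hδρ.trans hρ1
  have hε1 : ε ≤ 1 := by
    have h0 : δ ^ 2 ≤ 1 := pow_le_one₀ hδ0.le hδ1
    rw [hδ2] at h0
    linarith
  obtain ⟨b', hb'⟩ : ∃ b', b' = b * Real.exp (4 * |D|) := ⟨_, rfl⟩
  obtain ⟨a', ha'⟩ : ∃ a', a' = a * Real.exp (-(4 * |D|)) := ⟨_, rfl⟩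
  have hb'0 : 0 < b' := by rw [hb']; positivity
  have ha'0 : 0 < a' := by rw [ha']; positivity
  have hR' : 0 < 1 / R := by positivity
  have hev := (((exp_ev b' hR').and (exp_ev (2 / a') hR')).and
    (exp_ev (2 * (b' + b') / a') (q := δ ^ 2 / 24) (by positivity))).and
      (eventually_ge_atTop (0 : ℝ))
  obtain ⟨T₀, hT₀⟩ := eventually_atTop.1 hev
  refine ⟨T₀, fun T hTT x hx0 hx θ hθ A B hAB hht g hg0 => ?_⟩
  obtain ⟨⟨⟨f1, f2⟩, f3⟩, hT0⟩ := hT₀ T hTT
  have hx1 : x ≤ 1 := hx.trans hρ1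
  obtain ⟨m, rfl⟩ := Nat.exists_eq_add_of_le hAB
  simp only [wI_wS]
  have hht' : ∀ c : Conf n (A + m), T ≤ hS θ c ∧ hS θ c ≤ T + D := hht
  have hE0 : 0 ≤ EE θ A g := by
    have := EE_mono hθ (F := fun _ => (0 : ℝ)) (G := g) hg0
    rwa [EE_const] at this
  set E := EE θ A g with hE
  have hG0 : ∀ c : Conf n (A + m), 0 ≤ g (rows c A) := fun c => hg0 _
  have hDn : ∀ e : ℝ, |e| ≤ 4 → e * D ≤ 4 * |D| ∧ -(4 * |D|) ≤ -(|e| * D) := by
    intro e he
    have q1 : e * D ≤ |e| * |D| := by rw [← abs_mul]; exact le_abs_self _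
    have q2 : |e| * |D| ≤ 4 * |D| := mul_le_mul_of_nonneg_right he (abs_nonneg _)
    have q3 : |e| * D ≤ |e| * |D| := mul_le_mul_of_nonneg_left (le_abs_self D) (abs_nonneg _)
    exact ⟨q1.trans q2, by linarith⟩
  have hup : ∀ σ : ℝ, 0 ≤ σ → σ ≤ ρ →
      EE θ (A + m) (fun c => g (rows c A) * Real.exp (σ * (s * wS θ c)))
        ≤ b' * E * Real.exp ((3 * σ ^ 2 + ε) * T) := by
    intro σ h0 hσ
    have hσ1 : σ ≤ 1 := hσ.trans hρ1
    have h2 := up_g hθ (fun c => g (rows c A)) (fun c => s * wS θ c) (fun c => hS θ c) hG0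
      (σ := σ) (e := 3 * σ ^ 2 + ε) (D := D) (by positivity) (fun c => (hht' c).2)
      (hg σ h0 hσ θ hθ A m g hg0).2
    refine h2.trans ?_
    apply mul_le_mul_of_nonneg_right _ (Real.exp_pos _).le
    have h3 : Real.exp ((3 * σ ^ 2 + ε) * D) ≤ Real.exp (4 * |D|) := by
      apply Real.exp_le_exp.2
      refine (hDn _ ?_).1
      rw [abs_of_nonneg (by positivity)]
      have hσ2 : σ ^ 2 ≤ 1 := pow_le_one₀ h0 hσ1
      linarith
    have h4 := mul_le_mul_of_nonneg_left h3 (mul_nonneg hb.le hE0)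
    rw [hb']
    linarith
  have hlo : ∀ σ : ℝ, 0 ≤ σ → σ ≤ ρ → a' * E * Real.exp ((3 * σ ^ 2 - ε) * T)
      ≤ EE θ (A + m) (fun c => g (rows c A) * Real.exp (σ * (s * wS θ c))) := by
    intro σ h0 hσ
    have hσ1 : σ ≤ 1 := hσ.trans hρ1
    have h2 := lo_g hθ (fun c => g (rows c A)) (fun c => s * wS θ c) (fun c => hS θ c) hG0
      (σ := σ) (e := 3 * σ ^ 2 - ε) (D := D) hht' (hg σ h0 hσ θ hθ A m g hg0).1
    refine le_trans ?_ h2
    apply mul_le_mul_of_nonneg_right _ (Real.exp_pos _).le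
    have h3 : Real.exp (-(4 * |D|)) ≤ Real.exp (-(|3 * σ ^ 2 - ε| * D)) := by
      apply Real.exp_le_exp.2
      refine (hDn _ ?_).2
      rw [abs_le]
      have hσ2 : σ ^ 2 ≤ 1 := pow_le_one₀ h0 hσ1
      have hσ3 : 0 ≤ σ ^ 2 := by positivity
      constructor <;> linarith
    have h4 := mul_le_mul_of_nonneg_left h3 (mul_nonneg ha.le hE0)
    rw [ha']
    linarith
  have h5 := hup (x / 6) (by positivity) (by linarith)
  have h4 := hup ((x + 2 * δ) / 6) (by positivity) (by linarith)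
  have h3 := hlo ((x + δ) / 6) (by positivity) (by linarith)
  constructor
  · -- the lower bound
    have h2 := tilt_g hθ (fun c => g (rows c A)) (fun c => s * wS θ c) hG0 (σ := (x + δ) / 6)
      (u := δ / 6) (by positivity) (by positivity) (x * T) ((x + 2 * δ) * T)
    beta_reduce at h2
    rw [show (x + δ) / 6 + δ / 6 = (x + 2 * δ) / 6 by ring,
      show (x + δ) / 6 - δ / 6 = x / 6 by ring] at h2
    set P := EE θ (A + m) (fun c => g (rows c A)
      * if x * T ≤ s * wS θ c ∧ s * wS θ c ≤ (x + 2 * δ) * T then 1 else 0) with hP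
    set Z := Real.exp ((3 * ((x + δ) / 6) ^ 2 - ε) * T) with hZ
    have hZ0 : 0 < Z := Real.exp_pos _
    have g4 : 2 * ε - δ ^ 2 / 24 = 0 := by rw [hδ2]; ring
    have g1 : Real.exp (-(δ / 6 * ((x + 2 * δ) * T)))
        * EE θ (A + m) (fun c => g (rows c A) * Real.exp ((x + 2 * δ) / 6 * (s * wS θ c)))
        ≤ b' * E * (Z * Real.exp (-(T * (δ ^ 2 / 24)))) := by
      calc _ ≤ Real.exp (-(δ / 6 * ((x + 2 * δ) * T)))
            * (b' * E * Real.exp ((3 * ((x + 2 * δ) / 6) ^ 2 + ε) * T)) :=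
            mul_le_mul_of_nonneg_left h4 (Real.exp_pos _).le
        _ = b' * E * Real.exp (-(δ / 6 * ((x + 2 * δ) * T))
              + (3 * ((x + 2 * δ) / 6) ^ 2 + ε) * T) := by
            rw [Real.exp_add]
            ring
        _ = b' * E * Real.exp ((3 * ((x + δ) / 6) ^ 2 - ε) * T + -(T * (δ ^ 2 / 24))) := by
            have g3 : -(δ / 6 * ((x + 2 * δ) * T)) + (3 * ((x + 2 * δ) / 6) ^ 2 + ε) * T
                = (3 * ((x + δ) / 6) ^ 2 - ε) * T + -(T * (δ ^ 2 / 24))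
                  + T * (2 * ε - δ ^ 2 / 24) := by ring
            rw [g3, g4, mul_zero, add_zero]
        _ = _ := by rw [Real.exp_add]
    have g5 : Real.exp (δ / 6 * (x * T))
        * EE θ (A + m) (fun c => g (rows c A) * Real.exp (x / 6 * (s * wS θ c)))
        ≤ b' * E * (Z * Real.exp (-(T * (δ ^ 2 / 24)))) := by
      calc _ ≤ Real.exp (δ / 6 * (x * T)) * (b' * E * Real.exp ((3 * (x / 6) ^ 2 + ε) * T)) :=
            mul_le_mul_of_nonneg_left h5 (Real.exp_pos _).le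
        _ = b' * E * Real.exp (δ / 6 * (x * T) + (3 * (x / 6) ^ 2 + ε) * T) := by
            rw [Real.exp_add]
            ring
        _ = b' * E * Real.exp ((3 * ((x + δ) / 6) ^ 2 - ε) * T + -(T * (δ ^ 2 / 24))) := by
            have g3 : δ / 6 * (x * T) + (3 * (x / 6) ^ 2 + ε) * T
                = (3 * ((x + δ) / 6) ^ 2 - ε) * T + -(T * (δ ^ 2 / 24))
                  + T * (2 * ε - δ ^ 2 / 24) := by ring
            rw [g3, g4, mul_zero, add_zero]
        _ = _ := by rw [Real.exp_add]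
    have g6 : (b' + b') * E * (Z * Real.exp (-(T * (δ ^ 2 / 24)))) ≤ a' / 2 * E * Z := by
      have g7 : (b' + b') * Real.exp (-(T * (δ ^ 2 / 24))) ≤ a' / 2 := by
        rw [Real.exp_neg, ← div_eq_mul_inv, div_le_iff₀ (Real.exp_pos _)]
        rw [div_le_iff₀ ha'0] at f3
        linarith
      calc _ = ((b' + b') * Real.exp (-(T * (δ ^ 2 / 24)))) * (E * Z) := by ring
        _ ≤ a' / 2 * (E * Z) := mul_le_mul_of_nonneg_right g7 (mul_nonneg hE0 hZ0.le)
        _ = _ := by ring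
    have g8 : a' / 2 * E * Z ≤ Real.exp ((x + δ) / 6 * ((x + 2 * δ) * T)) * P := by
      have : (b' + b') * E * (Z * Real.exp (-(T * (δ ^ 2 / 24))))
        = b' * E * (Z * Real.exp (-(T * (δ ^ 2 / 24))))
          + b' * E * (Z * Real.exp (-(T * (δ ^ 2 / 24)))) := by
        ring
      have h3' : a' * E * Z ≤ _ := h3
      linarith
    have g9 : Real.exp (-(T * (1 / R))) ≤ a' / 2 := by
      rw [Real.exp_neg, inv_le_comm₀ (Real.exp_pos _) (by positivity)]
      rwa [inv_div]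
    have g10 : Real.exp (-(T * (1 / R))) * (E * Z)
        ≤ Real.exp ((x + δ) / 6 * ((x + 2 * δ) * T)) * P :=
      (mul_le_mul_of_nonneg_right g9 (mul_nonneg hE0 hZ0.le)).trans
        (le_trans (le_of_eq (by ring)) g8)
    have g11 : Real.exp (-(T * (1 / R)) + (3 * ((x + δ) / 6) ^ 2 - ε) * T
        - (x + δ) / 6 * ((x + 2 * δ) * T)) * E ≤ P := by
      rw [Real.exp_sub, Real.exp_add, div_mul_eq_mul_div, div_le_iff₀ (Real.exp_pos _)]
      linarith
    have g16 : P ≤ EE θ (A + m) (fun c => g (rows c A)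
        * if x * T ≤ s * wS θ c ∧ s * wS θ c ≤ (x + (2 * S + C₁ + 1) / R) * T then 1 else 0) := by
      rw [hP]
      refine EE_mono hθ fun c => mul_le_mul_of_nonneg_left ?_ (hG0 c)
      have q5 : (x + 2 * δ) * T ≤ (x + (2 * S + C₁ + 1) / R) * T := by
        apply mul_le_mul_of_nonneg_right _ hT0
        have g15 : (2 * S + C₁ + 1) / R = 2 * δ + C₁ / R + 1 / R := by rw [hδ]; ring
        have : 0 < C₁ / R := by positivity
        rw [g15]
        linarith
      by_cases h6 : x * T ≤ s * wS θ c ∧ s * wS θ c ≤ (x + 2 * δ) * T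
      · rw [if_pos h6, if_pos ⟨h6.1, h6.2.trans q5⟩]
      · rw [if_neg h6]
        split_ifs
        · exact zero_le_one
        · exact le_rfl
    refine le_trans (mul_le_mul_of_nonneg_right (Real.exp_le_exp.2 ?_) hE0) (g11.trans g16)
    have g12 : -(T * (1 / R)) + (3 * ((x + δ) / 6) ^ 2 - ε) * T - (x + δ) / 6 * ((x + 2 * δ) * T)
        = -(x ^ 2 / 12 + (1 / R + ε + (4 * x * δ + 3 * δ ^ 2) / 12)) * T := by ring
    rw [g12]
    have g13 : 1 / R + ε + (4 * x * δ + 3 * δ ^ 2) / 12 ≤ (2 * S + C₁ + 1) / R := by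
      have g14 : (4 * x * δ + 3 * δ ^ 2) / 12 ≤ δ := by
        have r1 : x * δ ≤ 1 * δ := mul_le_mul_of_nonneg_right hx1 hδ0.le
        have r2 : δ ^ 2 ≤ 1 * δ := by
          rw [pow_two]
          exact mul_le_mul_of_nonneg_right hδ1 hδ0.le
        linarith
      have g15 : (2 * S + C₁ + 1) / R = 2 * δ + C₁ / R + 1 / R := by rw [hδ]; ring
      rw [g15]
      linarith
    have := mul_le_mul_of_nonneg_right g13 hT0
    linarith
  · -- the upper bound
    have h2 := chern_g hθ (fun c => g (rows c A)) (fun c => s * wS θ c) hG0 (σ := x / 6)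
      (by positivity) (x * T)
    beta_reduce at h2
    set P := EE θ (A + m) (fun c => g (rows c A) * if x * T ≤ s * wS θ c then 1 else 0) with hP
    have g1 : Real.exp (x / 6 * (x * T)) * P
        ≤ Real.exp (T * (1 / R)) * Real.exp ((3 * (x / 6) ^ 2 + ε) * T) * E := by
      refine h2.trans (h5.trans ?_)
      have := mul_le_mul_of_nonneg_right f1 (mul_nonneg hE0 (Real.exp_pos
        ((3 * (x / 6) ^ 2 + ε) * T)).le)
      calc _ = b' * (E * Real.exp ((3 * (x / 6) ^ 2 + ε) * T)) := by ring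
        _ ≤ _ := this
        _ = _ := by ring
    have g2 : P ≤ Real.exp (T * (1 / R) + (3 * (x / 6) ^ 2 + ε) * T - x / 6 * (x * T)) * E := by
      rw [Real.exp_sub, Real.exp_add, div_mul_eq_mul_div, le_div_iff₀ (Real.exp_pos _)]
      linarith
    refine g2.trans (mul_le_mul_of_nonneg_right (Real.exp_le_exp.2 ?_) hE0)
    have g4 : T * (1 / R) + (3 * (x / 6) ^ 2 + ε) * T - x / 6 * (x * T)
        = -(x ^ 2 / 12 - (1 / R + ε)) * T := by ring
    have g5 : 1 / R + ε ≤ (2 * S + C₁ + 1) / R := by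
      have g15 : (2 * S + C₁ + 1) / R = 2 * δ + C₁ / R + 1 / R := by rw [hδ]; ring
      rw [g15]
      linarith
    have := mul_le_mul_of_nonneg_right g5 hT0
    linarith

end H729I
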