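import Mathlib

/-!
# The leading eigenvalue of tilted transition operators, by continuity
-/

set_option autoImplicit false

namespace H729P
open Filter Topology Set

variable {X B : Type*} [Fintype X] [Fintype B] (p : B → ℝ) (d : B → X → ℝ) (τ : B → X → X)

/-- the tilted transition operator on complex functions -/
noncomputable def V (κ : ℝ) (F : X → ℂ) (x : X) : ℂ :=
  ∑ b, ((p b * Real.exp (κ * d b x) : ℝ) : ℂ) * F (τ b x)

/-- the tilted transition operator on real functions -/
noncomputable def W (κ : ℝ) (F : X → ℝ) (x : X) : ℝ := ∑ b, p b * Real.exp (κ * d b x) * F (τ b x)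

/-- there is a path of `k` steps from `x` to `y` -/
def Rc : ℕ → X → X → Prop
  | 0, x, y => x = y
  | k + 1, x, y => ∃ b, Rc k (τ b x) y

variable {p d τ}

section
variable {κ : ℝ} (hp : ∀ b, 0 < p b)
include hp

theorem pe (b : B) (x : X) : 0 < p b * Real.exp (κ * d b x) := mul_pos (hp b) (Real.exp_pos _)

theorem W_mono {F G : X → ℝ} (h : ∀ x, F x ≤ G x) (x : X) : W p d τ κ F x ≤ W p d τ κ G x :=
  Finset.sum_le_sum fun b _ => mul_le_mul_of_nonneg_left (h _) (pe hp b x).le

theorem Wi_mono {F G : X → ℝ} (h : ∀ x, F x ≤ G x) (M : ℕ) (x : X) :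
    (W p d τ κ)^[M] F x ≤ (W p d τ κ)^[M] G x := by
  induction M generalizing F G with
  | zero => exact h x
  | succ M ih =>
    rw [Function.iterate_succ_apply, Function.iterate_succ_apply]
    exact ih (W_mono hp h)

theorem V_norm (G : X → ℂ) (x : X) : ‖V p d τ κ G x‖ ≤ W p d τ κ (fun y => ‖G y‖) x := by
  unfold V W
  refine (norm_sum_le _ _).trans (Finset.sum_le_sum fun b _ => ?_)
  rw [norm_mul, Complex.norm_real, Real.norm_of_nonneg (pe hp b x).le]

theorem low {q : ℝ} (hq0 : 0 < q) (hq : ∀ b x, q ≤ p b * Real.exp (κ * d b x)) {F : X → ℝ}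
    (hF : ∀ x, 0 ≤ F x) {k : ℕ} {x y : X} (h : Rc τ k x y) : q ^ k * F y ≤ (W p d τ κ)^[k] F x := by
  have hnn : ∀ (k : ℕ) (x : X), 0 ≤ (W p d τ κ)^[k] F x := by
    intro k
    induction k with
    | zero => exact hF
    | succ k ih =>
      intro x
      rw [Function.iterate_succ_apply']
      exact Finset.sum_nonneg fun b _ => mul_nonneg (pe hp b x).le (ih _)
  induction k generalizing x with
  | zero =>
    have h' : x = y := h
    rw [h', pow_zero, one_mul]
    exact le_rfl
  | succ k ih =>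
    obtain ⟨b, hb⟩ := h
    rw [Function.iterate_succ_apply']
    have h1 := ih hb
    have h2 : p b * Real.exp (κ * d b x) * (W p d τ κ)^[k] F (τ b x)
        ≤ W p d τ κ ((W p d τ κ)^[k] F) x := by
      unfold W
      exact Finset.single_le_sum (f := fun b => p b * Real.exp (κ * d b x)
        * (W p d τ κ)^[k] F (τ b x)) (fun b _ => mul_nonneg (pe hp b x).le (hnn k _))
        (Finset.mem_univ b)
    refine le_trans ?_ h2
    calc q ^ (k + 1) * F y = q * (q ^ k * F y) := by ring
      _ ≤ q * (W p d τ κ)^[k] F (τ b x) := mul_le_mul_of_nonneg_left h1 hq0.le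
      _ ≤ _ := mul_le_mul_of_nonneg_right (hq b x) (hnn k _)

end

theorem Wi_sub (κ : ℝ) (a : ℝ) (F G : X → ℝ) (M : ℕ) (x : X) :
    (W p d τ κ)^[M] (fun y => a * F y - G y) x
      = a * (W p d τ κ)^[M] F x - (W p d τ κ)^[M] G x := by
  induction M generalizing F G with
  | zero => rfl
  | succ M ih =>
    have e : W p d τ κ (fun y => a * F y - G y) = fun y => a * W p d τ κ F y - W p d τ κ G y := by
      funext y
      unfold W
      rw [Finset.mul_sum, ← Finset.sum_sub_distrib]
      refine Finset.sum_congr rfl fun b _ => ?_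
      ring
    rw [Function.iterate_succ_apply, Function.iterate_succ_apply, Function.iterate_succ_apply, ← ih, e]

theorem Wi_mul (κ : ℝ) (a : ℝ) (F : X → ℝ) (M : ℕ) (x : X) :
    (W p d τ κ)^[M] (fun y => a * F y) x = a * (W p d τ κ)^[M] F x := by
  have h1 := Wi_sub (p := p) (d := d) (τ := τ) κ a F (fun _ => 0) M x
  have h2 : ∀ M : ℕ, (W p d τ κ)^[M] (fun _ => (0 : ℝ)) x = 0 := by
    intro M
    induction M with
    | zero => rfl
    | succ M ih =>
      rw [Function.iterate_succ_apply]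
      have : W p d τ κ (fun _ => (0 : ℝ)) = fun _ => 0 := by
        funext y; unfold W; simp
      rw [this]
      exact ih
  rw [h2, sub_zero] at h1
  rw [← h1]
  simp

theorem Wi_eig {κ L : ℝ} {F : X → ℝ} (h : ∀ x, W p d τ κ F x = L * F x) (M : ℕ) (x : X) :
    (W p d τ κ)^[M] F x = L ^ M * F x := by
  induction M generalizing x with
  | zero => simp
  | succ M ih =>
    rw [Function.iterate_succ_apply]
    have : W p d τ κ F = fun y => L * F y := funext h
    rw [this, Wi_mul, ih, pow_succ]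
    ring

theorem V_cmul (κ : ℝ) (a : ℂ) (F : X → ℂ) (x : X) :
    V p d τ κ (fun y => a * F y) x = a * V p d τ κ F x := by
  unfold V
  rw [Finset.mul_sum]
  refine Finset.sum_congr rfl fun b _ => ?_
  ring

theorem Vi_eig {κ : ℝ} {l : ℂ} {G : X → ℂ} (h : ∀ x, V p d τ κ G x = l * G x) (M : ℕ) (x : X) :
    (V p d τ κ)^[M] G x = l ^ M * G x := by
  induction M generalizing x with
  | zero => simp
  | succ M ih =>
    rw [Function.iterate_succ_apply']
    have : (V p d τ κ)^[M] G = fun y => l ^ M * G y := funext ih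
    rw [this, V_cmul, h, pow_succ]
    ring

theorem Vi_norm (hp : ∀ b, 0 < p b) (κ : ℝ) (G : X → ℂ) (M : ℕ) (x : X) :
    ‖(V p d τ κ)^[M] G x‖ ≤ (W p d τ κ)^[M] (fun y => ‖G y‖) x := by
  induction M generalizing G with
  | zero => exact le_rfl
  | succ M ih =>
    rw [Function.iterate_succ_apply, Function.iterate_succ_apply]
    exact (ih _).trans (Wi_mono hp (fun y => V_norm hp G y) M x)

theorem V_re (κ : ℝ) (G : X → ℂ) (x : X) :
    (V p d τ κ G x).re = W p d τ κ (fun y => (G y).re) x := by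
  unfold V W
  rw [Complex.re_sum]
  refine Finset.sum_congr rfl fun b _ => ?_
  rw [Complex.re_ofReal_mul]

theorem Vi_re (κ : ℝ) (G : X → ℂ) (M : ℕ) (x : X) :
    ((V p d τ κ)^[M] G x).re = (W p d τ κ)^[M] (fun y => (G y).re) x := by
  induction M generalizing G with
  | zero => rfl
  | succ M ih =>
    have e : (fun y => (V p d τ κ G y).re) = W p d τ κ (fun y => (G y).re) := funext (V_re κ G)
    rw [Function.iterate_succ_apply, Function.iterate_succ_apply, ih, e]

/-- uniqueness of the eigenfunction -/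
theorem uniq (hp : ∀ b, 0 < p b) {κ q : ℝ} (hq0 : 0 < q)
    (hq : ∀ b x, q ≤ p b * Real.exp (κ * d b x)) {o : X} {K : ℕ} (hK : ∀ x, Rc τ K x o)
    {L : ℝ} (hL : 0 < L) {F : X → ℝ} (hF : ∀ x, 0 < F x) (hFe : ∀ x, W p d τ κ F x = L * F x)
    {G : X → ℂ} (hG : ∀ x, V p d τ κ G x = L * G x) : ∃ c : ℂ, ∀ x, G x = c * F x := by
  refine ⟨G o / F o, ?_⟩
  set c : ℂ := G o / F o with hc
  set H : X → ℂ := fun x => G x - c * F x with hH
  have hFo : (F o : ℂ) ≠ 0 := by exact_mod_cast (hF o).ne'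
  have hHo : H o = 0 := by rw [hH, hc]; field_simp; ring
  have hFV : ∀ x, V p d τ κ (fun y => (F y : ℂ)) x = L * F x := by
    intro x
    have h1 := congrArg (fun r : ℝ => (r : ℂ)) (hFe x)
    beta_reduce at h1
    unfold W at h1
    unfold V
    push_cast at h1 ⊢
    exact h1
  have hHe : ∀ x, V p d τ κ H x = L * H x := by
    intro x
    have h1 : V p d τ κ H x = V p d τ κ G x - c * V p d τ κ (fun y => (F y : ℂ)) x := by
      unfold V
      rw [Finset.mul_sum, ← Finset.sum_sub_distrib]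
      refine Finset.sum_congr rfl fun b _ => ?_
      rw [hH]
      ring
    rw [h1, hG, hFV, hH]
    ring
  obtain ⟨x0, -, hx0⟩ := Finset.exists_max_image Finset.univ (fun x => ‖H x‖ / F x)
    ⟨o, Finset.mem_univ o⟩
  set m := ‖H x0‖ / F x0 with hm
  have hm0 : 0 ≤ m := div_nonneg (norm_nonneg _) (hF x0).le
  have hle : ∀ x, ‖H x‖ ≤ m * F x := fun x => by
    have := hx0 x (Finset.mem_univ x)
    rwa [div_le_iff₀ (hF x)] at this
  have h1 : q ^ K * (m * F o - ‖H o‖) ≤ (W p d τ κ)^[K] (fun y => m * F y - ‖H y‖) x0 :=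
    low hp hq0 hq (fun x => sub_nonneg.2 (hle x)) (hK x0)
  rw [Wi_sub, Wi_eig hFe, hHo, norm_zero, sub_zero] at h1
  have h2 := Vi_norm (d := d) (τ := τ) hp κ H K x0
  rw [Vi_eig hHe, norm_mul, norm_pow, Complex.norm_real, Real.norm_of_nonneg hL.le] at h2
  have h3 : ‖H x0‖ = m * F x0 := by rw [hm]; field_simp [(hF x0).ne']
  rw [h3] at h2
  have h4 : q ^ K * (m * F o) ≤ 0 := by linarith
  have h5 : 0 < q ^ K * F o := mul_pos (pow_pos hq0 _) (hF o)
  have h6 : m = 0 := by
    by_contra hne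
    have : 0 < m := lt_of_le_of_ne hm0 (Ne.symm hne)
    nlinarith [mul_pos this h5]
  intro x
  have h7 := hle x
  rw [h6, zero_mul] at h7
  have h8 : H x = 0 := norm_le_zero_iff.1 h7
  rw [hH] at h8
  exact sub_eq_zero.1 h8

/-- an eigenfunction with values in the right half plane has a positive eigenvalue -/
theorem real_eig (hp : ∀ b, 0 < p b) {κ : ℝ} {o : X} {l : ℂ} {g : X → ℂ}
    (hg : ∀ x, V p d τ κ g x = l * g x) (hre : ∀ x, 0 < (g x).re) (hB : Nonempty B) :
    0 < l.re ∧ l.im = 0 := by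
  obtain ⟨x1, -, h1⟩ := Finset.exists_min_image Finset.univ (fun x => (g x).re)
    ⟨o, Finset.mem_univ o⟩
  obtain ⟨x2, -, h2⟩ := Finset.exists_max_image Finset.univ (fun x => ‖g x‖)
    ⟨o, Finset.mem_univ o⟩
  set m := (g x1).re with hm
  set S := ‖g x2‖ with hS
  have hm0 : 0 < m := hre x1
  have hS0 : 0 < S := by
    refine lt_of_lt_of_le (hre x2) ?_
    exact Complex.re_le_norm _
  have hgo : 0 < ‖g o‖ := lt_of_lt_of_le (hre o) (Complex.re_le_norm _)
  have hl0 : l ≠ 0 := by
    intro h0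
    have h3 := V_re (p := p) (d := d) (τ := τ) κ g o
    rw [hg, h0, zero_mul, Complex.zero_re] at h3
    obtain ⟨b0⟩ := hB
    have h4 : 0 < W p d τ κ (fun y => (g y).re) o := by
      unfold W
      refine Finset.sum_pos (fun b _ => mul_pos (pe hp b o) (hre _)) ⟨b0, Finset.mem_univ b0⟩
    linarith
  set r := ‖l‖ with hr
  have hr0 : 0 < r := norm_pos_iff.2 hl0
  set a := m * ‖g o‖ / S with ha
  have ha0 : 0 < a := by positivity
  have key : ∀ M : ℕ, a * r ^ M ≤ (l ^ M * g o).re := by
    intro M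
    have h3 : m * (W p d τ κ)^[M] (fun _ => 1) o ≤ (l ^ M * g o).re := by
      rw [← Vi_eig hg M o, Vi_re, ← Wi_mul]
      refine Wi_mono hp (fun x => ?_) M o
      rw [mul_one]
      exact h1 x (Finset.mem_univ x)
    have h4 : r ^ M * ‖g o‖ ≤ S * (W p d τ κ)^[M] (fun _ => 1) o := by
      have h5 := Vi_norm (d := d) (τ := τ) hp κ g M o
      rw [Vi_eig hg M o, norm_mul, norm_pow] at h5
      refine h5.trans ?_
      rw [← Wi_mul]
      refine Wi_mono hp (fun x => ?_) M o
      rw [mul_one]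
      exact h2 x (Finset.mem_univ x)
    calc a * r ^ M = m / S * (r ^ M * ‖g o‖) := by rw [ha]; ring
      _ ≤ m / S * (S * (W p d τ κ)^[M] (fun _ => 1) o) :=
          mul_le_mul_of_nonneg_left h4 (by positivity)
      _ = m * (W p d τ κ)^[M] (fun _ => 1) o := by field_simp
      _ ≤ _ := h3
  have hrC : (r : ℂ) ≠ 0 := by exact_mod_cast hr0.ne'
  set w : ℂ := l / r with hw
  have hw1 : ‖w‖ = 1 := by
    rw [hw, norm_div, Complex.norm_real, Real.norm_of_nonneg hr0.le, ← hr, div_self hr0.ne']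
  have key2 : ∀ M : ℕ, a ≤ (w ^ M * g o).re := by
    intro M
    have h3 := key M
    have e : l ^ M * g o = ((r ^ M : ℝ) : ℂ) * (w ^ M * g o) := by
      rw [hw, div_pow]
      push_cast
      field_simp
    rw [e, Complex.re_ofReal_mul] at h3
    have h4 : 0 < r ^ M := by positivity
    nlinarith
  have hwe : w = 1 := by
    by_contra hne
    have hne' : w - 1 ≠ 0 := sub_ne_zero.2 hne
    have hb : ∀ M : ℕ, M * a ≤ 2 / ‖w - 1‖ * ‖g o‖ := by
      intro M
      have h3 : ∑ i ∈ Finset.range M, a ≤ ∑ i ∈ Finset.range M, (w ^ i * g o).re :=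
        Finset.sum_le_sum fun i _ => key2 i
      rw [Finset.sum_const, Finset.card_range, nsmul_eq_mul, ← Complex.re_sum, ← Finset.sum_mul,
        geom_sum_eq hne] at h3
      refine h3.trans ((Complex.re_le_norm _).trans ?_)
      rw [norm_mul, norm_div]
      apply mul_le_mul_of_nonneg_right _ (norm_nonneg _)
      apply div_le_div_of_nonneg_right _ (norm_nonneg _)
      refine (norm_sub_le _ _).trans ?_
      rw [norm_pow, hw1, one_pow, norm_one]
      norm_num
    obtain ⟨M, hM⟩ := exists_nat_gt (2 / ‖w - 1‖ * ‖g o‖ / a)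
    have h3 := hb M
    rw [div_lt_iff₀ ha0] at hM
    linarith
  have hlr : l = r := by
    rw [hw, div_eq_one_iff_eq hrC] at hwe
    exact hwe
  rw [hlr]
  exact ⟨by rw [Complex.ofReal_re]; exact hr0, Complex.ofReal_im r⟩

end H729P
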