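import Pool.Agent.Run7.h729.Ld.Pf

/-!
# Continuation of the leading eigenvalue
-/

set_option autoImplicit false

namespace H729P
open Filter Topology Set

variable {X B : Type*} [Fintype X] [Fintype B] {p : B → ℝ} {d : B → X → ℝ} {τ : B → X → X}

/-- a parameter with a positive eigenfunction -/
def Gd (p : B → ℝ) (d : B → X → ℝ) (τ : B → X → X) (Λ : ℝ → ℂ) (κ : ℝ) : Prop :=
  ∃ (F : X → ℝ) (L : ℝ), 0 < L ∧ (∀ x, 0 < F x) ∧ Λ κ = L ∧ ∀ x, W p d τ κ F x = L * F x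

theorem pf_main (hp : ∀ b, 0 < p b) (hB : Nonempty B) {o : X} {K : ℕ} (hK : ∀ x, Rc τ K x o)
    (hR : ∀ x, ∃ k, Rc τ k o x) {c : ℝ} (hc : 0 ≤ c) {Λ : ℝ → ℂ}
    (hΛ : ∀ κ ∈ Icc 0 c, ContinuousAt Λ κ)
    (hE : ∀ κ ∈ Icc 0 c, ∃ G : X → ℂ, (∃ x, G x ≠ 0) ∧ ∀ x, V p d τ κ G x = Λ κ * G x)
    (h0 : Gd p d τ Λ 0) : ∀ κ ∈ Icc 0 c, Gd p d τ Λ κ := by
  classical
  obtain ⟨b0⟩ := hB
  -- the bounds
  obtain ⟨q, hq0, hq⟩ : ∃ q : ℝ, 0 < q ∧ ∀ κ ∈ Icc 0 c, ∀ b x, q ≤ p b * Real.exp (κ * d b x) := by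
    obtain ⟨z, -, hz⟩ := Finset.exists_min_image (Finset.univ : Finset (B × X))
      (fun z => p z.1 * Real.exp (-(c * |d z.1 z.2|))) ⟨(b0, o), Finset.mem_univ _⟩
    refine ⟨_, mul_pos (hp z.1) (Real.exp_pos (-(c * |d z.1 z.2|))), fun κ hκ b x => ?_⟩
    refine (hz (b, x) (Finset.mem_univ _)).trans ?_
    apply mul_le_mul_of_nonneg_left _ (hp b).le
    apply Real.exp_le_exp.2
    have h1 : κ * |d b x| ≤ c * |d b x| := mul_le_mul_of_nonneg_right hκ.2 (abs_nonneg _)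
    have h2 : -(κ * |d b x|) ≤ κ * d b x := by
      have := mul_le_mul_of_nonneg_left (neg_abs_le (d b x)) hκ.1
      linarith
    show -(c * |d b x|) ≤ κ * d b x
    linarith
  obtain ⟨Q, hQ0, hQ⟩ : ∃ Q : ℝ, 0 < Q ∧ ∀ κ ∈ Icc 0 c, ∀ x, ∑ b, p b * Real.exp (κ * d b x) ≤ Q := by
    refine ⟨∑ x, ∑ b, p b * Real.exp (c * |d b x|), ?_, fun κ hκ x => ?_⟩
    · refine Finset.sum_pos (fun x _ => Finset.sum_pos (fun b _ => mul_pos (hp b) (Real.exp_pos _))
        ⟨b0, Finset.mem_univ _⟩) ⟨o, Finset.mem_univ _⟩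
    · have h1 : ∑ b, p b * Real.exp (κ * d b x) ≤ ∑ b, p b * Real.exp (c * |d b x|) := by
        refine Finset.sum_le_sum fun b _ => mul_le_mul_of_nonneg_left ?_ (hp b).le
        apply Real.exp_le_exp.2
        calc κ * d b x ≤ κ * |d b x| := mul_le_mul_of_nonneg_left (le_abs_self _) hκ.1
          _ ≤ c * |d b x| := mul_le_mul_of_nonneg_right hκ.2 (abs_nonneg _)
      refine h1.trans (Finset.single_le_sum (f := fun x => ∑ b, p b * Real.exp (c * |d b x|))
        (fun x _ => Finset.sum_nonneg fun b _ => (mul_pos (hp b) (Real.exp_pos _)).le)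
        (Finset.mem_univ x))
  choose kx hkx using hR
  set l : ℝ := (q / Q) ^ K with hl
  set u : ℝ := ∑ x, (Q / q) ^ kx x with hu
  have hl0 : 0 < l := by positivity
  have box : ∀ κ ∈ Icc 0 c, ∀ (F : X → ℝ) (L : ℝ), 0 < L → (∀ x, 0 < F x) → F o = 1 →
      (∀ x, W p d τ κ F x = L * F x) → (∀ x, F x ∈ Icc l u) ∧ q * l ≤ L := by
    intro κ hκ F L hL hF ho hW
    have hLQ : L ≤ Q := by
      obtain ⟨x0, -, hx0⟩ := Finset.exists_max_image Finset.univ F ⟨o, Finset.mem_univ o⟩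
      have h1 : L * F x0 ≤ Q * F x0 := by
        rw [← hW x0]
        calc W p d τ κ F x0 ≤ ∑ b, p b * Real.exp (κ * d b x0) * F x0 := by
              refine Finset.sum_le_sum fun b _ => ?_
              exact mul_le_mul_of_nonneg_left (hx0 _ (Finset.mem_univ _)) (pe hp b x0).le
          _ = (∑ b, p b * Real.exp (κ * d b x0)) * F x0 := by rw [Finset.sum_mul]
          _ ≤ Q * F x0 := mul_le_mul_of_nonneg_right (hQ κ hκ x0) (hF x0).le
      exact le_of_mul_le_mul_right h1 (hF x0)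
    have hlo : ∀ x, l ≤ F x := by
      intro x
      have h1 := low (d := d) (κ := κ) hp hq0 (hq κ hκ) (fun x => (hF x).le) (hK x)
      rw [Wi_eig hW, ho, mul_one] at h1
      have h2 : L ^ K * F x ≤ Q ^ K * F x :=
        mul_le_mul_of_nonneg_right (pow_le_pow_left₀ hL.le hLQ K) (hF x).le
      rw [hl, div_pow, div_le_iff₀ (by positivity)]
      linarith
    refine ⟨fun x => ⟨hlo x, ?_⟩, ?_⟩
    · have h1 := low (d := d) (κ := κ) hp hq0 (hq κ hκ) (fun x => (hF x).le) (hkx x)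
      rw [Wi_eig hW, ho, mul_one] at h1
      have h2 : L ^ kx x ≤ Q ^ kx x := pow_le_pow_left₀ hL.le hLQ _
      have h3 : F x ≤ (Q / q) ^ kx x := by
        rw [div_pow, le_div_iff₀ (by positivity)]
        linarith
      refine h3.trans ?_
      rw [hu]
      exact Finset.single_le_sum (f := fun x => (Q / q) ^ kx x) (fun x _ => by positivity)
        (Finset.mem_univ x)
    · have h1 := hW o
      rw [ho, mul_one] at h1
      rw [← h1]
      calc q * l ≤ p b0 * Real.exp (κ * d b0 o) * F (τ b0 o) :=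
            mul_le_mul (hq κ hκ b0 o) (hlo _) hl0.le (pe hp b0 o).le
        _ ≤ W p d τ κ F o := by
            unfold W
            exact Finset.single_le_sum (f := fun b => p b * Real.exp (κ * d b o) * F (τ b o))
              (fun b _ => mul_nonneg (pe hp b o).le (hF _).le) (Finset.mem_univ b0)
  have norm1 : ∀ κ, Gd p d τ Λ κ → ∃ (F : X → ℝ) (L : ℝ), 0 < L ∧ (∀ x, 0 < F x) ∧ F o = 1 ∧
      Λ κ = L ∧ ∀ x, W p d τ κ F x = L * F x := by
    rintro κ ⟨F, L, hL, hF, hLΛ, hW⟩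
    refine ⟨fun x => (F o)⁻¹ * F x, L, hL, fun x => mul_pos (inv_pos.2 (hF o)) (hF x),
      inv_mul_cancel₀ (hF o).ne', hLΛ, fun x => ?_⟩
    have h1 := Wi_mul (p := p) (d := d) (τ := τ) κ ((F o)⁻¹) F 1 x
    rw [Function.iterate_one] at h1
    rw [h1, hW]
    ring
  -- the closed set
  set S : Set ℝ := {κ | κ ∈ Icc 0 c ∧ Gd p d τ Λ κ} with hS
  have hclosed : IsClosed S := by
    rw [isClosed_iff_ultrafilter]
    intro x U hU hSU
    have hxI : x ∈ Icc 0 c := by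
      refine isClosed_Icc.mem_of_tendsto (b := (U : Filter ℝ)) (f := id) hU ?_
      exact mem_of_superset hSU fun κ hκ => hκ.1
    have hex : ∀ κ, ∃ (F : X → ℝ) (L : ℝ), κ ∈ S → 0 < L ∧ (∀ x, 0 < F x) ∧ F o = 1 ∧
        Λ κ = L ∧ ∀ x, W p d τ κ F x = L * F x := by
      intro κ
      by_cases hκ : κ ∈ S
      · obtain ⟨F, L, h⟩ := norm1 κ hκ.2
        exact ⟨F, L, fun _ => h⟩
      · exact ⟨fun _ => 0, 0, fun h => absurd h hκ⟩
    choose Ff Lf hFf using hex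
    have hcomp : IsCompact (Set.pi univ (fun _ : X => Icc l u)) :=
      isCompact_univ_pi fun _ => isCompact_Icc
    have hmem : ∀ᶠ κ in (U : Filter ℝ), Ff κ ∈ Set.pi univ (fun _ : X => Icc l u) := by
      refine mem_of_superset hSU fun κ hκ => ?_
      obtain ⟨a1, a2, a3, a4, a5⟩ := hFf κ hκ
      intro y _
      exact (box κ hκ.1 _ _ a1 a2 a3 a5).1 y
    obtain ⟨F, hFbox, hFt⟩ := hcomp.ultrafilter_le_nhds (U.map Ff) (by
      rw [le_principal_iff]; exact hmem)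
    have hFt' : Tendsto Ff (U : Filter ℝ) (𝓝 F) := hFt
    have hFy : ∀ y, Tendsto (fun κ => Ff κ y) (U : Filter ℝ) (𝓝 (F y)) := fun y =>
      ((continuous_apply y).tendsto F).comp hFt'
    have hΛt : Tendsto Λ (U : Filter ℝ) (𝓝 (Λ x)) := (hΛ x hxI).tendsto.mono_left hU
    have hid : Tendsto (fun κ : ℝ => κ) (U : Filter ℝ) (𝓝 x) := hU
    have hcl : IsClosed {z : ℂ | z.im = 0 ∧ q * l ≤ z.re} :=
      (isClosed_eq Complex.continuous_im continuous_const).inter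
        (isClosed_le continuous_const Complex.continuous_re)
    have hreal : (Λ x).im = 0 ∧ q * l ≤ (Λ x).re := by
      refine hcl.mem_of_tendsto hΛt ?_
      refine mem_of_superset hSU fun κ hκ => ?_
      obtain ⟨a1, a2, a3, a4, a5⟩ := hFf κ hκ
      show (Λ κ).im = 0 ∧ q * l ≤ (Λ κ).re
      rw [a4]
      exact ⟨Complex.ofReal_im _, by
        rw [Complex.ofReal_re]; exact (box κ hκ.1 _ _ a1 a2 a3 a5).2⟩
    have hΛr : Λ x = ((Λ x).re : ℂ) := by
      apply Complex.ext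
      · simp
      · simp [hreal.1]
    refine ⟨hxI, F, (Λ x).re, lt_of_lt_of_le (by positivity) hreal.2, fun y => ?_, hΛr, fun y => ?_⟩
    · exact lt_of_lt_of_le hl0 (hFbox y (mem_univ y)).1
    · have h1 : Tendsto (fun κ => W p d τ κ (Ff κ) y) (U : Filter ℝ) (𝓝 (W p d τ x F y)) := by
        unfold W
        refine tendsto_finsetSum _ fun b _ => ?_
        refine Tendsto.mul (Tendsto.mul tendsto_const_nhds ?_) (hFy _)
        exact (Real.continuous_exp.tendsto _).comp (hid.mul tendsto_const_nhds)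
      have h2 : Tendsto (fun κ => (Λ κ).re * Ff κ y) (U : Filter ℝ) (𝓝 ((Λ x).re * F y)) :=
        ((Complex.continuous_re.tendsto _).comp hΛt).mul (hFy y)
      refine tendsto_nhds_unique h1 (h2.congr' ?_)
      refine mem_of_superset hSU fun κ hκ => ?_
      obtain ⟨a1, a2, a3, a4, a5⟩ := hFf κ hκ
      show (Λ κ).re * Ff κ y = W p d τ κ (Ff κ) y
      rw [a5, a4, Complex.ofReal_re]
  -- the continuation
  have hopen : ∀ κ ∈ S ∩ Ico 0 c, S ∈ 𝓝[>] κ := by
    rintro κ ⟨⟨hκI, F, L, hL, hF, hLΛ, hW⟩, hκc⟩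
    rw [mem_iff_ultrafilter]
    intro U hU
    have hU' : (U : Filter ℝ) ≤ 𝓝 κ := hU.trans nhdsWithin_le_nhds
    have hUI : Icc 0 c ∈ U := by
      refine hU ?_
      filter_upwards [Ioo_mem_nhdsGT hκc.2] with y hy
      exact ⟨hκc.1.trans hy.1.le, hy.2.le⟩
    have hex : ∀ κ', ∃ G : X → ℂ, κ' ∈ Icc 0 c → (∀ x, ‖G x‖ ≤ 1) ∧ 1 ≤ ∑ x, ‖G x‖ ∧
        ∀ x, V p d τ κ' G x = Λ κ' * G x := by
      intro κ'
      by_cases hκ' : κ' ∈ Icc 0 c
      · obtain ⟨G, ⟨x1, hx1⟩, hG⟩ := hE κ' hκ'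
        obtain ⟨x0, -, hx0⟩ := Finset.exists_max_image Finset.univ (fun x => ‖G x‖)
          ⟨o, Finset.mem_univ o⟩
        have hpos : 0 < ‖G x0‖ := lt_of_lt_of_le (norm_pos_iff.2 hx1) (hx0 x1 (Finset.mem_univ _))
        have hcoe : ‖((‖G x0‖⁻¹ : ℝ) : ℂ)‖ = ‖G x0‖⁻¹ := by
          rw [Complex.norm_real, Real.norm_of_nonneg (inv_pos.2 hpos).le]
        refine ⟨fun x => ((‖G x0‖⁻¹ : ℝ) : ℂ) * G x, fun _ => ⟨fun x => ?_, ?_, fun x => ?_⟩⟩
        · rw [norm_mul, hcoe, inv_mul_le_iff₀ hpos, mul_one]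
          exact hx0 x (Finset.mem_univ _)
        · have h1 : ‖((‖G x0‖⁻¹ : ℝ) : ℂ) * G x0‖ = 1 := by
            rw [norm_mul, hcoe, inv_mul_cancel₀ hpos.ne']
          rw [← h1]
          exact Finset.single_le_sum (f := fun x => ‖((‖G x0‖⁻¹ : ℝ) : ℂ) * G x‖)
            (fun x _ => norm_nonneg _) (Finset.mem_univ x0)
        · rw [V_cmul, hG]
          ring
      · exact ⟨fun _ => 0, fun h => absurd h hκ'⟩
    choose Gf hGf using hex
    have hcomp : IsCompact (Set.pi univ (fun _ : X => Metric.closedBall (0 : ℂ) 1)) :=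
      isCompact_univ_pi fun _ => isCompact_closedBall _ _
    have hmem : ∀ᶠ κ in (U : Filter ℝ), Gf κ ∈ Set.pi univ (fun _ : X => Metric.closedBall (0 : ℂ) 1) := by
      refine mem_of_superset hUI fun κ' hκ' => ?_
      intro y _
      rw [mem_closedBall_zero_iff]
      exact (hGf κ' hκ').1 y
    obtain ⟨G, -, hGt⟩ := hcomp.ultrafilter_le_nhds (U.map Gf) (by
      rw [le_principal_iff]; exact hmem)
    have hGt' : Tendsto Gf (U : Filter ℝ) (𝓝 G) := hGt
    have hGy : ∀ y, Tendsto (fun κ => Gf κ y) (U : Filter ℝ) (𝓝 (G y)) := fun y =>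
      ((continuous_apply y).tendsto G).comp hGt'
    have hΛt : Tendsto Λ (U : Filter ℝ) (𝓝 (Λ κ)) := (hΛ κ hκI).tendsto.mono_left hU'
    have hid : Tendsto (fun κ : ℝ => κ) (U : Filter ℝ) (𝓝 κ) := hU'
    have hGe : ∀ x, V p d τ κ G x = L * G x := by
      intro y
      have h1 : Tendsto (fun κ => V p d τ κ (Gf κ) y) (U : Filter ℝ) (𝓝 (V p d τ κ G y)) := by
        unfold V
        refine tendsto_finsetSum _ fun b _ => ?_
        refine Tendsto.mul ?_ (hGy _)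
        refine (Complex.continuous_ofReal.tendsto _).comp (Tendsto.mul tendsto_const_nhds ?_)
        exact (Real.continuous_exp.tendsto _).comp (hid.mul tendsto_const_nhds)
      have h2 : Tendsto (fun κ => Λ κ * Gf κ y) (U : Filter ℝ) (𝓝 (Λ κ * G y)) := hΛt.mul (hGy y)
      rw [← hLΛ]
      refine tendsto_nhds_unique h1 (h2.congr' ?_)
      refine mem_of_superset hUI fun κ' hκ' => ?_
      exact ((hGf κ' hκ').2.2 y).symm
    have hGne : 1 ≤ ∑ x, ‖G x‖ := by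
      have h1 : Tendsto (fun κ => ∑ x, ‖Gf κ x‖) (U : Filter ℝ) (𝓝 (∑ x, ‖G x‖)) :=
        tendsto_finsetSum _ fun x _ => (hGy x).norm
      refine ge_of_tendsto h1 ?_
      exact mem_of_superset hUI fun κ' hκ' => (hGf κ' hκ').2.1
    obtain ⟨e, he⟩ := uniq hp hq0 (hq κ hκI) hK hL hF hW hGe
    have he0 : e ≠ 0 := by
      rintro rfl
      have : ∑ x, ‖G x‖ = 0 := by
        refine Finset.sum_eq_zero fun x _ => ?_
        rw [he, zero_mul, norm_zero]
      linarith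
    have hpos : ∀ x, ∀ᶠ κ' in (U : Filter ℝ), 0 < (e⁻¹ * Gf κ' x).re := by
      intro x
      have h1 : Tendsto (fun κ' => (e⁻¹ * Gf κ' x).re) (U : Filter ℝ) (𝓝 (e⁻¹ * G x).re) :=
        (Complex.continuous_re.tendsto _).comp ((hGy x).const_mul _)
      have h2 : (e⁻¹ * G x).re = F x := by
        rw [he, ← mul_assoc, inv_mul_cancel₀ he0, one_mul, Complex.ofReal_re]
      rw [h2] at h1
      exact h1.eventually (lt_mem_nhds (hF x))
    have hall : ∀ᶠ κ' in (U : Filter ℝ), ∀ x, 0 < (e⁻¹ * Gf κ' x).re := eventually_all.2 hpos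
    filter_upwards [hall, hUI] with κ' hκ' hκI'
    have hg : ∀ x, V p d τ κ' (fun y => e⁻¹ * Gf κ' y) x = Λ κ' * (fun y => e⁻¹ * Gf κ' y) x := by
      intro x
      rw [V_cmul, (hGf κ' hκI').2.2]
      ring
    obtain ⟨r1, r2⟩ := real_eig hp (o := o) hg hκ' ⟨b0⟩
    refine ⟨hκI', fun x => (e⁻¹ * Gf κ' x).re, (Λ κ').re, r1, hκ', ?_, fun x => ?_⟩
    · apply Complex.ext
      · simp
      · simp [r2]
    · have h1 := congrArg Complex.re (hg x)
      rw [V_re, Complex.mul_re, r2, zero_mul, sub_zero] at h1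
      exact h1
  have hIS : IsClosed (S ∩ Icc 0 c) := hclosed.inter isClosed_Icc
  have hfin := hIS.Icc_subset_of_forall_mem_nhdsWithin (a := 0) (b := c)
    (⟨⟨le_rfl, hc⟩, h0⟩) hopen
  intro κ hκ
  exact (hfin hκ).2

end H729P
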