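import Pool.Agent.Run7.h729.Ld.Gre
import Pool.Agent.Run7.h729.Ld.Bx
import Pool.Agent.Run7.h729.Iso.Fdd

/-!
# The exponential moments of the increments
-/

set_option autoImplicit false

namespace H729I
open H906K Pool.Agent.H974R3 Polynomial Complex Filter Topology H729P

variable {n : ℕ}

/-- the common positive eigenfunctions are bounded uniformly in the parameter -/
theorem com_unif {t : (PowerSeries ℂ)[X]} {w : Pat (2 * n + 1) → PowerSeries ℂ}
    {μ : Pat (2 * n + 1) → ℝ} {g : ℕ → ℝ} (h : Eg n t w μ) (hb : Lb n t g) (hn : 1 ≤ n) {s c : ℝ}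
    (hs : s ≠ 0) (hsc : |s| * c < 1 / 10000) :
    ∃ l u : ℝ, 0 < l ∧ 0 < u ∧ ∀ κ : ℝ, 0 ≤ κ → κ ≤ c → ∃ F : XX n → ℝ,
      (∀ x, l ≤ F x ∧ F x ≤ u) ∧ ∀ θ ∈ Set.Icc 0 Real.pi, ∀ x,
        W (pT n θ) (dX n s) (tX n) κ F x = Real.exp (lT t n s κ θ) * F x := by
  obtain ⟨K, w', hw', hst⟩ := word_start n
  have hK : ∀ x, Rc (tX n) K x (oX n) := by
    intro x
    obtain ⟨h1, h2⟩ := rcX_word hw' x
    have : (⟨w' x.1, h1⟩ : XX n) = oX n := Subtype.ext (hst x.1)
    rwa [this] at h2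
  obtain ⟨l, u, hl, hu, hbox⟩ := box (p := pX n) (d := dX n s) (fun _ => by unfold pX; positivity)
    ⟨fun _ => false⟩ hK (fun x => by
      obtain ⟨σ, K, c, rfl⟩ := x
      exact ⟨K, rcX_pat K c⟩) c
  refine ⟨l, u, hl, hu, fun κ hκ0 hκc => ?_⟩
  obtain ⟨F, hF, hW⟩ := com_pos h hb hn hs hκ0
    (lt_of_le_of_lt (mul_le_mul_of_nonneg_left hκc (abs_nonneg s)) hsc)
  have hlin : ∀ θ ∈ Set.Icc 0 Real.pi, ∀ x, W (pT n θ) (dX n s) (tX n) κ
      (fun y => (F (oX n))⁻¹ * F y) x = Real.exp (lT t n s κ θ) * ((F (oX n))⁻¹ * F x) := by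
    intro θ hθ x
    have h1 := Wi_mul (p := pT n θ) (d := dX n s) (τ := tX n) κ ((F (oX n))⁻¹) F 1 x
    rw [Function.iterate_one] at h1
    rw [h1, hW θ hθ]
    ring
  refine ⟨fun y => (F (oX n))⁻¹ * F y, fun x => ?_, hlin⟩
  have h2 := hbox κ ⟨hκ0, hκc⟩ (fun y => (F (oX n))⁻¹ * F y)
    (Real.exp (lT t n s κ (Real.pi / 2))) (Real.exp_pos _)
    (fun x => mul_pos (inv_pos.2 (hF _)) (hF x)) (inv_mul_cancel₀ (hF _).ne') (fun x => by
      have h3 := hlin (Real.pi / 2) half_mem x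
      rwa [pT_half] at h3) x
  exact h2

set_option maxHeartbeats 1000000 in
/-- the multiplicative martingale above the row `K` -/
theorem EE_martg {t : (PowerSeries ℂ)[X]} {s κ : ℝ} {F : XX n → ℝ}
    (hF : ∀ θ ∈ Set.Icc 0 Real.pi, ∀ x,
      W (pT n θ) (dX n s) (tX n) κ F x = Real.exp (lT t n s κ θ) * F x) {θ : Strat n}
    (hθ : Adm θ) {K : ℕ} (g : Conf n K → ℝ) (m : ℕ) :
    EE θ (K + m) (fun c => g (rows c K) * (Real.exp (κ * (s * ((dis c - dis (rows c K)) / (2 * n + 1)))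
        - ∑ i ∈ Finset.Ico K (K + m), lT t n s κ (θ i (rows c i))) * F ⟨pat c, ⟨K + m, c, rfl⟩⟩))
      = EE θ K (fun c => g c * F ⟨pat c, ⟨K, c, rfl⟩⟩) := by
  induction m with
  | zero =>
    refine congrArg (EE θ K) ?_
    funext c
    have e1 : rows c K = c := rows_self c
    show g (rows c K) * (Real.exp (κ * (s * ((dis c - dis (rows c K)) / (2 * n + 1)))
        - ∑ i ∈ Finset.Ico K K, lT t n s κ (θ i (rows c i))) * F ⟨pat c, ⟨K, c, rfl⟩⟩) = _
    rw [e1, Finset.Ico_self, Finset.sum_empty, sub_self]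
    simp
  | succ m ih =>
    rw [← ih]
    refine (EE_succ (M := K + m) θ _).trans (congrArg (EE θ (K + m)) ?_)
    funext c
    have h1 := hF (θ (K + m) c) (hθ (K + m) c) ⟨pat c, ⟨K + m, c, rfl⟩⟩
    have h2 : F ⟨pat c, ⟨K + m, c, rfl⟩⟩ = Real.exp (-lT t n s κ (θ (K + m) c))
        * W (pT n (θ (K + m) c)) (dX n s) (tX n) κ F ⟨pat c, ⟨K + m, c, rfl⟩⟩ := by
      rw [h1, ← mul_assoc, ← Real.exp_add, neg_add_cancel, Real.exp_zero, one_mul]
    refine Eq.trans ?_ (congrArg (fun y => g (rows c K)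
      * (Real.exp (κ * (s * ((dis c - dis (rows c K)) / (2 * n + 1)))
      - ∑ i ∈ Finset.Ico K (K + m), lT t n s κ (θ i (rows c i))) * y)) h2.symm)
    beta_reduce
    unfold W
    rw [Finset.mul_sum, Finset.mul_sum, Finset.mul_sum]
    refine Finset.sum_congr rfl fun b _ => ?_
    obtain ⟨r1, r2⟩ := run_app c b
    have e0 : (⟨pat (app c b), ⟨K + m + 1, app c b, rfl⟩⟩ : XX n)
        = tX n b ⟨pat c, ⟨K + m, c, rfl⟩⟩ := Subtype.ext r1
    have e3 : ∑ i ∈ Finset.Ico K (K + m + 1), lT t n s κ (θ i (rows (app c b) i))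
        = ∑ i ∈ Finset.Ico K (K + m), lT t n s κ (θ i (rows c i)) + lT t n s κ (θ (K + m) c) := by
      rw [Finset.sum_Ico_succ_top (by omega), rows_app c b le_rfl, rows_self]
      refine congrArg₂ (· + ·) (Finset.sum_congr rfl fun i hi => ?_) rfl
      rw [rows_app c b (Finset.mem_Ico.1 hi).2.le]
    have e4 : rows (app c b) K = rows c K := rows_app c b (by omega)
    show rw1 n (prob (θ (K + m) c)) b • (g (rows (app c b) K)
      * (Real.exp (κ * (s * ((dis (app c b) - dis (rows (app c b) K)) / (2 * n + 1)))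
        - ∑ i ∈ Finset.Ico K (K + m + 1), lT t n s κ (θ i (rows (app c b) i)))
          * F ⟨pat (app c b), ⟨K + m + 1, app c b, rfl⟩⟩)) = _
    rw [e0, r2, e3, e4]
    have e1 : rw1 n (prob (θ (K + m) c)) b = pT n (θ (K + m) c) b := rfl
    rw [e1, smul_eq_mul]
    unfold dX
    have e2 : Real.exp (κ * (s * ((dis c + (dTc (2 * n) b (pat c) : ℝ) - dis (rows c K)) / (2 * n + 1)))
          - (∑ i ∈ Finset.Ico K (K + m), lT t n s κ (θ i (rows c i)) + lT t n s κ (θ (K + m) c)))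
        = Real.exp (κ * (s * ((dis c - dis (rows c K)) / (2 * n + 1)))
            - ∑ i ∈ Finset.Ico K (K + m), lT t n s κ (θ i (rows c i)))
          * Real.exp (-lT t n s κ (θ (K + m) c))
          * Real.exp (κ * (s * ((dTc (2 * n) b (pat c) : ℝ) / (2 * n + 1)))) := by
      rw [← Real.exp_add, ← Real.exp_add]
      congr 1
      ring
    rw [e2]
    ring

/-- the winding in the rows `K ≤ t < K + m` -/
noncomputable def wS {K m : ℕ} (θ : Strat n) (c : Conf n (K + m)) : ℝ :=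
  2 * Real.pi / (2 * n + 1) * (dis c - dis (rows c K)
    - ∑ i ∈ Finset.Ico K (K + m), Real.cos (θ i (rows c i)))

/-- the height of the rows `K ≤ t < K + m` -/
noncomputable def hS {K m : ℕ} (θ : Strat n) (c : Conf n (K + m)) : ℝ :=
  2 * Real.pi / (2 * n + 1) * ∑ i ∈ Finset.Ico K (K + m), Real.sin (θ i (rows c i))

/-- **the exponential moments of the increments in adaptive environments** -/
theorem grow_seg : ∃ ρ C : ℝ, 0 < ρ ∧ ρ ≤ 1 ∧ 0 < C ∧ ∀ n : ℕ, 1 ≤ n → ∀ s : ℝ, |s| = 1 →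
    ∃ a b : ℝ, 0 < a ∧ 0 < b ∧ ∀ σ : ℝ, 0 ≤ σ → σ ≤ ρ → ∀ θ : Strat n, Adm θ →
      ∀ (K m : ℕ) (g : Conf n K → ℝ), (∀ c, 0 ≤ g c) →
      a * EE θ K g ≤ EE θ (K + m) (fun c => g (rows c K)
        * Real.exp (σ * (s * wS θ c) - (3 * σ ^ 2 - C / (2 * n + 1)) * hS θ c)) ∧
      EE θ (K + m) (fun c => g (rows c K)
        * Real.exp (σ * (s * wS θ c) - (3 * σ ^ 2 + C / (2 * n + 1)) * hS θ c)) ≤ b * EE θ K g := by
  obtain ⟨r, K0, hr, hr', hK0, h1⟩ := log_cxa
  have hpi := Real.pi_pos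
  have hpi3 := Real.pi_gt_three
  refine ⟨min (r / (2 * Real.pi)) 1, K0 * (r + r ^ 2), by positivity, min_le_right _ _,
    by positivity, fun n hn s hs => ?_⟩
  obtain ⟨t, w, μ, g, h, hb⟩ := eg_exists hn
  have hs0 : s ≠ 0 := by
    rintro rfl
    simp at hs
  obtain ⟨l, u, hl, hu, hun⟩ := com_unif h hb hn hs0 (c := r) (by rw [hs, one_mul]; exact hr')
  have hN0 : (0 : ℝ) < 2 * n + 1 := by positivity
  have hN1 : (1 : ℝ) ≤ 2 * n + 1 := by
    have : (0 : ℝ) ≤ n := Nat.cast_nonneg n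
    linarith
  refine ⟨l / u, u / l, by positivity, by positivity, fun σ hσ0 hσ θ hθ K m g' hg' => ?_⟩
  have hκr : 2 * Real.pi * σ ≤ r := by
    have h2 : σ ≤ r / (2 * Real.pi) := hσ.trans (min_le_left _ _)
    rw [le_div_iff₀ (by positivity)] at h2
    linarith
  have hκ0 : 0 ≤ 2 * Real.pi * σ := by positivity
  obtain ⟨κ, hκ⟩ : ∃ κ, κ = 2 * Real.pi * σ := ⟨_, rfl⟩
  rw [← hκ] at hκr hκ0
  obtain ⟨F, hF, hW⟩ := hun κ hκ0 hκr
  -- the logarithm of the eigenvalue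
  have hlog : ∀ φ ∈ Set.Icc 0 Real.pi,
      |lT t n s κ φ - s * κ * Real.cos φ / (2 * n + 1)
        - 3 * Real.sin φ * κ ^ 2 / (2 * Real.pi * (2 * n + 1))|
        ≤ K0 * (r + r ^ 2) / (2 * n + 1) * (2 * Real.pi / (2 * n + 1) * Real.sin φ) := by
    intro φ hφ
    have hsin : 0 ≤ Real.sin φ := Real.sin_nonneg_of_mem_Icc hφ
    set z : ℂ := -I * ((s * κ : ℝ) : ℂ) with hz
    have hzn : ‖z‖ = κ := by rw [hz, LX_norm, abs_mul, hs, one_mul, abs_of_nonneg hκ0]
    have hz2 : z ^ 2 = -((κ ^ 2 : ℝ) : ℂ) := by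
      have hs2 : s ^ 2 = 1 := by rw [← sq_abs, hs, one_pow]
      rw [hz, mul_pow, neg_sq, Complex.I_sq, ← Complex.ofReal_pow, mul_pow, hs2, one_mul]
      ring
    have hz1 : I * z = ((s * κ : ℝ) : ℂ) := by
      rw [hz]
      linear_combination (-((s * κ : ℝ) : ℂ)) * Complex.I_sq
    have h2 := h1 n hn t w μ g h hb z (by rw [hzn]; exact hκr) φ hφ
    rw [hzn, hz2, hz1] at h2
    have h6 := (Complex.abs_re_le_norm _).trans h2
    have e : (ev z (lgs (tz n t ((ph φ : ℂ) * I)))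
          - ((Real.cos φ / (2 * n + 1) : ℝ) : ℂ) * ((s * κ : ℝ) : ℂ)
          + ((3 * Real.sin φ / (2 * Real.pi * (2 * n + 1)) : ℝ) : ℂ) * -((κ ^ 2 : ℝ) : ℂ)).re
        = lT t n s κ φ - s * κ * Real.cos φ / (2 * n + 1)
          - 3 * Real.sin φ * κ ^ 2 / (2 * Real.pi * (2 * n + 1)) := by
      rw [← Complex.ofReal_neg, ← Complex.ofReal_mul, ← Complex.ofReal_mul, Complex.add_re,
        Complex.sub_re, Complex.ofReal_re, Complex.ofReal_re]
      unfold lT
      rw [← hz]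
      ring
    rw [e] at h6
    refine h6.trans ?_
    set N : ℝ := 2 * n + 1 with hN
    have h4 : κ / N ^ 3 + κ ^ 2 / N ^ 2 ≤ (r + r ^ 2) / N ^ 2 := by
      have h5 : κ / N ^ 3 ≤ r / N ^ 2 := by
        apply div_le_div₀ hr.le hκr (by positivity)
        exact pow_le_pow_right₀ hN1 (by norm_num)
      have h6 : κ ^ 2 / N ^ 2 ≤ r ^ 2 / N ^ 2 := by gcongr
      rw [add_div]
      linarith
    calc K0 * Real.sin φ * (κ / N ^ 3 + κ ^ 2 / N ^ 2)
        ≤ K0 * Real.sin φ * ((r + r ^ 2) / N ^ 2) := mul_le_mul_of_nonneg_left h4 (by positivity)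
      _ = (K0 * (r + r ^ 2) / N * (1 / N * Real.sin φ)) * 1 := by field_simp
      _ ≤ (K0 * (r + r ^ 2) / N * (1 / N * Real.sin φ)) * (2 * Real.pi) := by
          apply mul_le_mul_of_nonneg_left _ (by positivity)
          linarith
      _ = _ := by ring
  -- the sum
  have hsum : ∀ c : Conf n (K + m),
      |∑ i ∈ Finset.Ico K (K + m), lT t n s κ (θ i (rows c i))
        - (κ * (s * ((dis c - dis (rows c K)) / (2 * n + 1))) - σ * (s * wS θ c))
        - 3 * σ ^ 2 * hS θ c| ≤ K0 * (r + r ^ 2) / (2 * n + 1) * hS θ c := by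
    intro c
    have e : ∑ i ∈ Finset.Ico K (K + m), lT t n s κ (θ i (rows c i))
        - (κ * (s * ((dis c - dis (rows c K)) / (2 * n + 1))) - σ * (s * wS θ c))
        - 3 * σ ^ 2 * hS θ c
        = ∑ i ∈ Finset.Ico K (K + m), (lT t n s κ (θ i (rows c i))
          - s * κ * Real.cos (θ i (rows c i)) / (2 * n + 1)
          - 3 * Real.sin (θ i (rows c i)) * κ ^ 2 / (2 * Real.pi * (2 * n + 1))) := by
      rw [Finset.sum_sub_distrib, Finset.sum_sub_distrib]
      unfold wS hS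
      have e1 : ∑ i ∈ Finset.Ico K (K + m), s * κ * Real.cos (θ i (rows c i)) / (2 * n + 1)
          = s * κ / (2 * n + 1) * ∑ i ∈ Finset.Ico K (K + m), Real.cos (θ i (rows c i)) := by
        rw [Finset.mul_sum]
        exact Finset.sum_congr rfl fun i _ => by ring
      have e2 : ∑ i ∈ Finset.Ico K (K + m), 3 * Real.sin (θ i (rows c i)) * κ ^ 2
            / (2 * Real.pi * (2 * n + 1))
          = 3 * κ ^ 2 / (2 * Real.pi * (2 * n + 1))
            * ∑ i ∈ Finset.Ico K (K + m), Real.sin (θ i (rows c i)) := by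
        rw [Finset.mul_sum]
        exact Finset.sum_congr rfl fun i _ => by ring
      rw [e1, e2, hκ]
      field_simp
      ring
    rw [e]
    refine (Finset.abs_sum_le_sum_abs _ _).trans ?_
    refine (Finset.sum_le_sum fun i _ => hlog _ (hθ _ _)).trans (le_of_eq ?_)
    unfold hS
    rw [Finset.mul_sum, Finset.mul_sum]
  have hm := EE_martg hW hθ g' m
  have hg1 : EE θ K (fun c => g' c * F ⟨pat c, ⟨K, c, rfl⟩⟩) ≤ u * EE θ K g' := by
    rw [← EE_mul]
    refine EE_mono hθ fun c => ?_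
    rw [mul_comm]
    exact mul_le_mul_of_nonneg_right (hF _).2 (hg' c)
  have hg2 : l * EE θ K g' ≤ EE θ K (fun c => g' c * F ⟨pat c, ⟨K, c, rfl⟩⟩) := by
    rw [← EE_mul]
    refine EE_mono hθ fun c => ?_
    rw [mul_comm (g' c)]
    exact mul_le_mul_of_nonneg_right (hF _).1 (hg' c)
  constructor
  · have h7 : EE θ (K + m) (fun c => g' (rows c K)
        * (Real.exp (κ * (s * ((dis c - dis (rows c K)) / (2 * n + 1)))
        - ∑ i ∈ Finset.Ico K (K + m), lT t n s κ (θ i (rows c i))) * F ⟨pat c, ⟨K + m, c, rfl⟩⟩))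
        ≤ u * EE θ (K + m) (fun c => g' (rows c K)
        * Real.exp (σ * (s * wS θ c) - (3 * σ ^ 2 - K0 * (r + r ^ 2) / (2 * n + 1)) * hS θ c)) := by
      rw [← EE_mul]
      refine EE_mono hθ fun c => ?_
      obtain ⟨q1, q2⟩ := abs_le.1 (hsum c)
      have q3 : Real.exp (κ * (s * ((dis c - dis (rows c K)) / (2 * n + 1)))
          - ∑ i ∈ Finset.Ico K (K + m), lT t n s κ (θ i (rows c i)))
          ≤ Real.exp (σ * (s * wS θ c) - (3 * σ ^ 2 - K0 * (r + r ^ 2) / (2 * n + 1)) * hS θ c) := by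
        apply Real.exp_le_exp.2
        linarith
      calc _ ≤ g' (rows c K) * (Real.exp (σ * (s * wS θ c)
            - (3 * σ ^ 2 - K0 * (r + r ^ 2) / (2 * n + 1)) * hS θ c) * u) := by
            apply mul_le_mul_of_nonneg_left _ (hg' _)
            exact mul_le_mul q3 (hF _).2 (hl.le.trans (hF _).1) (Real.exp_pos _).le
        _ = _ := by ring
    have h8 := hg2.trans (hm.symm.le.trans h7)
    rw [div_mul_eq_mul_div, div_le_iff₀ hu]
    linarith
  · have h7 : l * EE θ (K + m) (fun c => g' (rows c K)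
        * Real.exp (σ * (s * wS θ c) - (3 * σ ^ 2 + K0 * (r + r ^ 2) / (2 * n + 1)) * hS θ c))
        ≤ EE θ (K + m) (fun c => g' (rows c K)
        * (Real.exp (κ * (s * ((dis c - dis (rows c K)) / (2 * n + 1)))
        - ∑ i ∈ Finset.Ico K (K + m), lT t n s κ (θ i (rows c i)))
          * F ⟨pat c, ⟨K + m, c, rfl⟩⟩)) := by
      rw [← EE_mul]
      refine EE_mono hθ fun c => ?_
      obtain ⟨q1, q2⟩ := abs_le.1 (hsum c)
      have q3 : Real.exp (σ * (s * wS θ c) - (3 * σ ^ 2 + K0 * (r + r ^ 2) / (2 * n + 1)) * hS θ c)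
          ≤ Real.exp (κ * (s * ((dis c - dis (rows c K)) / (2 * n + 1)))
          - ∑ i ∈ Finset.Ico K (K + m), lT t n s κ (θ i (rows c i))) := by
        apply Real.exp_le_exp.2
        linarith
      calc _ = g' (rows c K) * (Real.exp (σ * (s * wS θ c)
            - (3 * σ ^ 2 + K0 * (r + r ^ 2) / (2 * n + 1)) * hS θ c) * l) := by ring
        _ ≤ _ := by
            apply mul_le_mul_of_nonneg_left _ (hg' _)
            exact mul_le_mul q3 (hF _).1 hl.le (Real.exp_pos _).le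
    have h8 := h7.trans (hm.le.trans hg1)
    rw [div_mul_eq_mul_div, le_div_iff₀ hl]
    linarith

end H729I
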